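import Pool.Agent.W_d1cfb0_h45.Defs

/-!
# Monotone bijections of `(0,1)`
-/

namespace Pool.Agent.W_d1cfb0_h45

/-- A strictly increasing bijection of `(0,1)` extends by the identity to an order isomorphism. -/
theorem mono_ext (φ ψ : ℝ → ℝ) (h1 : ∀ t, 0 < t → t < 1 → 0 < φ t ∧ φ t < 1)
    (h2 : ∀ t, 0 < t → t < 1 → 0 < ψ t ∧ ψ t < 1)
    (h3 : ∀ t, 0 < t → t < 1 → ψ (φ t) = t) (h4 : ∀ t, 0 < t → t < 1 → φ (ψ t) = t)
    (h5 : ∀ s t, 0 < s → s < t → t < 1 → φ s < φ t) :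
    ∃ g : ℝ ≃o ℝ, SO 0 1 g ∧ ∀ t, 0 < t → t < 1 → g t = φ t := by
  classical
  let G : ℝ → ℝ := fun x => if 0 < x ∧ x < 1 then φ x else x
  let H : ℝ → ℝ := fun x => if 0 < x ∧ x < 1 then ψ x else x
  have Gin : ∀ x, 0 < x → x < 1 → G x = φ x := fun x h h' => if_pos ⟨h, h'⟩
  have Gout : ∀ x, ¬ (0 < x ∧ x < 1) → G x = x := fun x h => if_neg h
  have Hin : ∀ x, 0 < x → x < 1 → H x = ψ x := fun x h h' => if_pos ⟨h, h'⟩
  have Hout : ∀ x, ¬ (0 < x ∧ x < 1) → H x = x := fun x h => if_neg h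
  have hmono : StrictMono G := by
    intro x y hxy
    by_cases hx : 0 < x ∧ x < 1
    · by_cases hy : 0 < y ∧ y < 1
      · rw [Gin x hx.1 hx.2, Gin y hy.1 hy.2]
        exact h5 x y hx.1 hxy hy.2
      · rw [Gin x hx.1 hx.2, Gout y hy]
        have hy1 : 1 ≤ y := by
          by_contra hc
          exact hy ⟨hx.1.trans hxy, not_le.1 hc⟩
        exact lt_of_lt_of_le (h1 x hx.1 hx.2).2 hy1
    · by_cases hy : 0 < y ∧ y < 1
      · rw [Gout x hx, Gin y hy.1 hy.2]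
        have hx0 : x ≤ 0 := by
          by_contra hc
          exact hx ⟨not_le.1 hc, hxy.trans hy.2⟩
        exact lt_of_le_of_lt hx0 (h1 y hy.1 hy.2).1
      · rw [Gout x hx, Gout y hy]
        exact hxy
  have hinv : Function.RightInverse H G := by
    intro y
    by_cases hy : 0 < y ∧ y < 1
    · rw [Hin y hy.1 hy.2, Gin _ (h2 y hy.1 hy.2).1 (h2 y hy.1 hy.2).2]
      exact h4 y hy.1 hy.2
    · rw [Hout y hy, Gout y hy]
  refine ⟨hmono.orderIsoOfRightInverse G H hinv, ?_, ?_⟩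
  · intro x hx
    refine Gout x ?_
    rintro ⟨hx0, hx1⟩
    rcases hx with hx | hx
    · exact absurd hx0 (not_lt.2 hx)
    · exact absurd hx1 (not_lt.2 hx)
  · intro t ht0 ht1
    exact Gin t ht0 ht1

/-- A continuous injective map of `(0,1)` is strictly monotone or strictly antitone. -/
theorem mono_or_anti (φ : ℝ → ℝ) (h1 : ContinuousOn φ (Set.Ioo 0 1))
    (h2 : Set.InjOn φ (Set.Ioo 0 1)) :
    (∀ s t, 0 < s → s < t → t < 1 → φ s < φ t) ∨ (∀ s t, 0 < s → s < t → t < 1 → φ t < φ s) := by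
  rcases ContinuousOn.strictMonoOn_of_injOn_Ioo one_pos h1 h2 with h | h
  · left
    intro s t hs hst ht
    exact h ⟨hs, hst.trans ht⟩ ⟨hs.trans hst, ht⟩ hst
  · right
    intro s t hs hst ht
    exact h ⟨hs, hst.trans ht⟩ ⟨hs.trans hst, ht⟩ hst

end Pool.Agent.W_d1cfb0_h45
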