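import Pool.Agent.W_d1cfb0_h45.Defs

/-!
# Periodisation
-/

namespace Pool.Agent.W_d1cfb0_h45

/-- the periodic extension as a function -/
noncomputable def Per_f (g : ℝ ≃o ℝ) (x : ℝ) : ℝ := ⌊x⌋ + g (Int.fract x)

theorem Per_range {g : ℝ ≃o ℝ} (h : SO 0 1 g) (x : ℝ) :
    0 ≤ g (Int.fract x) ∧ g (Int.fract x) < 1 := by
  refine ⟨(h.maps' (Int.fract_nonneg x) (Int.fract_lt_one x).le).1, ?_⟩
  have h1 := g.lt_iff_lt.2 (Int.fract_lt_one x)
  rwa [h 1 (Or.inr le_rfl)] at h1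

theorem Per_floor {g : ℝ ≃o ℝ} (h : SO 0 1 g) (x : ℝ) : ⌊Per_f g x⌋ = ⌊x⌋ := by
  obtain ⟨h1, h2⟩ := Per_range h x
  rw [Int.floor_eq_iff]
  unfold Per_f
  constructor <;> linarith

theorem Per_fract {g : ℝ ≃o ℝ} (h : SO 0 1 g) (x : ℝ) :
    Int.fract (Per_f g x) = g (Int.fract x) := by
  have h1 := Per_floor h x
  rw [Int.fract, h1]
  unfold Per_f
  ring

theorem Per_mul (g : ℝ ≃o ℝ) {g' : ℝ ≃o ℝ} (h' : SO 0 1 g') (x : ℝ) :
    Per_f (g * g') x = Per_f g (Per_f g' x) := by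
  have h1 := Per_floor h' x
  have h2 := Per_fract h' x
  conv_rhs => rw [Per_f]
  rw [h1, h2]
  rfl

theorem Per_one (x : ℝ) : Per_f 1 x = x := by
  have h1 : (1 : ℝ ≃o ℝ) (Int.fract x) = Int.fract x := rfl
  rw [Per_f, h1]
  exact Int.floor_add_fract x

theorem Per_strictMono {g : ℝ ≃o ℝ} (h : SO 0 1 g) : StrictMono (Per_f g) := by
  intro x y hxy
  obtain ⟨h1, h2⟩ := Per_range h x
  obtain ⟨h3, h4⟩ := Per_range h y
  rcases (Int.floor_mono hxy.le).lt_or_eq with h5 | h5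
  · have h6 : (⌊x⌋ : ℝ) + 1 ≤ ⌊y⌋ := by exact_mod_cast h5
    unfold Per_f
    linarith
  · unfold Per_f
    rw [h5]
    have h7 : Int.fract x < Int.fract y := by
      unfold Int.fract
      rw [h5]
      linarith
    have h8 := g.lt_iff_lt.2 h7
    linarith

/-- the periodic extension as an order isomorphism -/
noncomputable def Per_iso (g : ℝ ≃o ℝ) (h : SO 0 1 g) : ℝ ≃o ℝ :=
  StrictMono.orderIsoOfRightInverse (Per_f g) (Per_strictMono h) (Per_f g⁻¹) fun x => by
    rw [← Per_mul g h.inv, mul_inv_cancel, Per_one]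

theorem Per_iso_apply (g : ℝ ≃o ℝ) (h : SO 0 1 g) (x : ℝ) : Per_iso g h x = Per_f g x := rfl

open Classical in
/-- the periodic extension -/
noncomputable def Per_per (g : ℝ ≃o ℝ) : ℝ ≃o ℝ := if h : SO 0 1 g then Per_iso g h else 1

theorem Per_per_apply {g : ℝ ≃o ℝ} (h : SO 0 1 g) (x : ℝ) : Per_per g x = Per_f g x := by
  unfold Per_per
  rw [dif_pos h, Per_iso_apply]

/-- cut a map fixing `a` and `c` -/
noncomputable def Per_cut (a c : ℝ) (b : ℝ ≃o ℝ) (x : ℝ) : ℝ :=
  if a < x ∧ x < c then b x else x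

theorem Per_cut_mono {a c : ℝ} {b : ℝ ≃o ℝ} (ha : b a = a) (hc : b c = c) :
    StrictMono (Per_cut a c b) := by
  intro x y hxy
  have k1 := b.lt_iff_lt.2 hxy
  have k2 : a < x → a < b x := fun h => by
    have := b.lt_iff_lt.2 h
    rwa [ha] at this
  have k3 : x < c → b x < c := fun h => by
    have := b.lt_iff_lt.2 h
    rwa [hc] at this
  have k4 : a < y → a < b y := fun h => by
    have := b.lt_iff_lt.2 h
    rwa [ha] at this
  have k5 : y < c → b y < c := fun h => by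
    have := b.lt_iff_lt.2 h
    rwa [hc] at this
  unfold Per_cut
  split_ifs with h1 h2 h2
  · exact k1
  · have h3 : c ≤ y := by
      by_contra h
      exact h2 ⟨h1.1.trans hxy, not_le.1 h⟩
    exact (k3 h1.2).trans_le h3
  · have h3 : x ≤ a := by
      by_contra h
      exact h1 ⟨not_le.1 h, hxy.trans h2.2⟩
    exact h3.trans_lt (k4 h2.1)
  · exact hxy

theorem Per_cut_inv {a c : ℝ} {b : ℝ ≃o ℝ} (ha : b a = a) (hc : b c = c) (x : ℝ) :
    Per_cut a c b (Per_cut a c b⁻¹ x) = x := by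
  by_cases h : a < x ∧ x < c
  · have h1 : Per_cut a c b⁻¹ x = b⁻¹ x := if_pos h
    have h2 : a < b⁻¹ x := by
      have := b⁻¹.lt_iff_lt.2 h.1
      nth_rewrite 1 [← ha] at this
      rwa [inv_app] at this
    have h3 : b⁻¹ x < c := by
      have := b⁻¹.lt_iff_lt.2 h.2
      nth_rewrite 1 [← hc] at this
      rwa [inv_app] at this
    rw [h1]
    unfold Per_cut
    rw [if_pos ⟨h2, h3⟩, app_inv]
  · have h1 : Per_cut a c b⁻¹ x = x := if_neg h
    rw [h1]
    exact if_neg h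

/-- the cut as an order isomorphism -/
noncomputable def Per_cutIso (a c : ℝ) (b : ℝ ≃o ℝ) (ha : b a = a) (hc : b c = c) : ℝ ≃o ℝ :=
  StrictMono.orderIsoOfRightInverse (Per_cut a c b) (Per_cut_mono ha hc) (Per_cut a c b⁻¹)
    (Per_cut_inv ha hc)

theorem Per_cutIso_apply (a c : ℝ) (b : ℝ ≃o ℝ) (ha : b a = a) (hc : b c = c) (x : ℝ) :
    Per_cutIso a c b ha hc x = if a < x ∧ x < c then b x else x := rfl

/-- The periodic extension of a homeomorphism of `[0,1]`.

Proof. `per g x = ⌊x⌋ + g (Int.fract x)` if `SO 0 1 g` and `per g = 1` otherwise. `g (fract x)` is in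
`[0,1)` (`SO.maps'`, and `g t < g 1 = 1` for `t < 1`), so `⌊per g x⌋ = ⌊x⌋`,
`fract (per g x) = g (fract x)`; this gives
`per (g * g') = per g * per g'`, `per 1 = 1`, so `per g` is a bijection, and it is strictly
increasing (compare floors). -/
theorem exists_per : ∃ per : (ℝ ≃o ℝ) → (ℝ ≃o ℝ),
    (∀ g, SO 0 1 g → Lf (per g)) ∧
    (∀ g, SO 0 1 g → ∀ x, 0 ≤ x → x ≤ 1 → per g x = g x) ∧
    (per 1 = 1) ∧
    (∀ g g', SO 0 1 g → SO 0 1 g' → per (g * g') = per g * per g') ∧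
    (∀ g, SO 0 1 g → per g⁻¹ = (per g)⁻¹) ∧
    (∀ g g', SO 0 1 g → SO 0 1 g' → ∀ ε : ℝ, (∀ x, |g'⁻¹ (g x) - x| ≤ ε) →
      ∀ x, |(per g')⁻¹ (per g x) - x| ≤ ε) ∧
    (∀ b, Lf b → b 0 = 0 → ∀ a c, 0 < a → a < c → c < 1 →
      (∀ x, 0 ≤ x → x ≤ a → b x = x) → (∀ x, c ≤ x → x ≤ 1 → b x = x) →
      ∃ g, SO a c g ∧ per g = b) := by
  have hone : Per_per 1 = 1 := by
    ext x
    rw [Per_per_apply (SO.one 0 1), Per_one]
    rfl
  have hmul : ∀ g g', SO 0 1 g → SO 0 1 g' → Per_per (g * g') = Per_per g * Per_per g' := by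
    intro g g' h h'
    ext x
    rw [Per_per_apply (h.mul h'), mul_app, Per_per_apply h, Per_per_apply h', Per_mul g h']
  have hinv : ∀ g, SO 0 1 g → Per_per g⁻¹ = (Per_per g)⁻¹ := by
    intro g h
    apply eq_inv_of_mul_eq_one_left
    rw [← hmul _ _ h.inv h, inv_mul_cancel, hone]
  refine ⟨Per_per, ?_, ?_, hone, hmul, hinv, ?_, ?_⟩
  · intro g h x
    rw [Per_per_apply h, Per_per_apply h]
    unfold Per_f
    rw [Int.floor_add_one, Int.fract_add_one]
    push_cast
    ring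
  · intro g h x h0 h1
    rw [Per_per_apply h]
    unfold Per_f
    rcases h1.lt_or_eq with h2 | h2
    · have h3 : ⌊x⌋ = 0 := by
        rw [Int.floor_eq_iff]
        constructor
        · simpa using h0
        · simpa using h2
      rw [Int.fract, h3, Int.cast_zero, sub_zero, zero_add]
    · rw [h2, Int.floor_one, Int.fract_one, h 0 (Or.inl le_rfl), h 1 (Or.inr le_rfl)]
      norm_num
  · intro g g' h h' ε hε x
    rw [← hinv g' h', ← mul_app, ← hmul _ _ h'.inv h, Per_per_apply (h'.inv.mul h)]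
    have h1 := hε (Int.fract x)
    have h2 : Per_f (g'⁻¹ * g) x - x = g'⁻¹ (g (Int.fract x)) - Int.fract x := by
      unfold Per_f
      rw [mul_app]
      have h3 := Int.floor_add_fract x
      linarith
    rw [h2]
    exact h1
  · intro b hb hb0 a c ha hac hc h1 h2
    have hba : b a = a := h1 a ha.le le_rfl
    have hbc : b c = c := h2 c le_rfl hc.le
    have hso : SO a c (Per_cutIso a c b hba hbc) := by
      intro x hx
      rw [Per_cutIso_apply, if_neg]
      rintro ⟨h3, h4⟩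
      rcases hx with hx | hx
      · exact absurd h3 (not_lt.2 hx)
      · exact absurd h4 (not_lt.2 hx)
    refine ⟨Per_cutIso a c b hba hbc, hso, ?_⟩
    have hso' : SO 0 1 (Per_cutIso a c b hba hbc) := hso.mono ha.le hc.le
    ext x
    rw [Per_per_apply hso']
    have h3 : b x = b (Int.fract x) + ⌊x⌋ := by
      rw [← hb.add_int, Int.fract_add_floor]
    have h4 : Per_cutIso a c b hba hbc (Int.fract x) = b (Int.fract x) := by
      rw [Per_cutIso_apply]
      split_ifs with h5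
      · rfl
      · by_cases h6 : Int.fract x ≤ a
        · exact (h1 _ (Int.fract_nonneg x) h6).symm
        · have h7 : c ≤ Int.fract x := by
            by_contra h8
            exact h5 ⟨not_le.1 h6, not_le.1 h8⟩
          exact (h2 _ h7 (Int.fract_lt_one x).le).symm
    unfold Per_f
    rw [h4, h3]
    ring

end Pool.Agent.W_d1cfb0_h45
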