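import Pool.Agent.W_d1cfb0_h45.Phi
import Pool.Agent.W_d1cfb0_h45.MonoExt
import Pool.Agent.W_d1cfb0_h45.Per

/-!
# Homeomorphisms of the circle fixing the base point, in terms of lifts
-/

namespace Pool.Agent.W_d1cfb0_h45

/-- Proof. `φ` for `h` and `ψ` for `h⁻¹` from `exists_phi`; `ψ (φ t) = t` and `φ (ψ t) = t` on
`(0,1)`; by `mono_or_anti` `φ` is strictly monotone or strictly antitone. In the first case
`g` from `mono_ext` and `b = per g` (`exists_per`): `h (e t) = e (b t)` for `0 ≤ t < 1`, then for all `t`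
as both sides have period `1`. In the second case apply `mono_ext` to `1 - φ t` and `ψ (1 - t)`. -/
theorem lift_fix {X : Type*} [TopologicalSpace X] [T2Space X] (e : ℝ → X) (he : Continuous e)
    (hp : ∀ s t, e s = e t ↔ ∃ n : ℤ, s = t + n) (h : X ≃ₜ X) (h1 : ∀ t, ∃ s, h (e t) = e s)
    (h2 : ∀ t, ∃ s, h.symm (e t) = e s) (h0 : h (e 0) = e 0) :
    ∃ b : ℝ ≃o ℝ, Lf b ∧ ((∀ t, h (e t) = e (b t)) ∨ (∀ t, h (e t) = e (-(b t)))) := by
  have h0' : h.symm (e 0) = e 0 := by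
    rw [Homeomorph.symm_apply_eq]
    exact h0.symm
  obtain ⟨φ, hφ, hφc⟩ := exists_phi e he hp h h1 h0
  obtain ⟨ψ, hψ, hψc⟩ := exists_phi e he hp h.symm h2 h0'
  have hper : ∀ (t : ℝ) (n : ℤ), e (t + n) = e t := fun t n => (hp _ _).2 ⟨n, rfl⟩
  have huniq : ∀ s t : ℝ, 0 < s → s < 1 → 0 < t → t < 1 → e s = e t → s = t := by
    intro s t hs hs' ht ht' hst
    obtain ⟨n, hn⟩ := (hp s t).1 hst
    have h3 : (-1 : ℝ) < n := by linarith
    have h4 : (n : ℝ) < 1 := by linarith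
    have h5 : (-1 : ℤ) < n := by exact_mod_cast h3
    have h6 : n < (1 : ℤ) := by exact_mod_cast h4
    have h7 : n = 0 := by omega
    rw [hn, h7]
    simp
  have hψφ : ∀ t, 0 < t → t < 1 → ψ (φ t) = t := by
    intro t ht ht'
    obtain ⟨h3, h4, h5⟩ := hφ t ht ht'
    obtain ⟨h6, h7, h8⟩ := hψ (φ t) h3 h4
    refine huniq _ _ h6 h7 ht ht' ?_
    rw [← h8, ← h5, Homeomorph.symm_apply_apply]
  have hφψ : ∀ t, 0 < t → t < 1 → φ (ψ t) = t := by
    intro t ht ht'
    obtain ⟨h3, h4, h5⟩ := hψ t ht ht'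
    obtain ⟨h6, h7, h8⟩ := hφ (ψ t) h3 h4
    refine huniq _ _ h6 h7 ht ht' ?_
    rw [← h8, ← h5, Homeomorph.apply_symm_apply]
  have hinj : Set.InjOn φ (Set.Ioo 0 1) := by
    intro s hs t ht hst
    rw [← hψφ s hs.1 hs.2, ← hψφ t ht.1 ht.2, hst]
  obtain ⟨per, hp1, hp2, -⟩ := exists_per
  -- the reduction to the fundamental domain
  have hfl : ∀ t : ℝ, t = Int.fract t + (⌊t⌋ : ℤ) := fun t => (Int.fract_add_floor t).symm
  rcases mono_or_anti φ hφc hinj with hm | hm
  · obtain ⟨g, hg, hgφ⟩ := mono_ext φ ψ (fun t ht ht' => ⟨(hφ t ht ht').1, (hφ t ht ht').2.1⟩)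
      (fun t ht ht' => ⟨(hψ t ht ht').1, (hψ t ht ht').2.1⟩) hψφ hφψ hm
    have hb := hp1 g hg
    refine ⟨per g, hb, Or.inl fun t => ?_⟩
    have h3 : h (e (Int.fract t)) = e (per g (Int.fract t)) := by
      rcases (Int.fract_nonneg t).eq_or_lt with h4 | h4
      · rw [← h4, hp2 g hg 0 le_rfl zero_le_one, hg 0 (Or.inl le_rfl), h0]
      · have h5 := Int.fract_lt_one t
        rw [hp2 g hg _ h4.le h5.le, hgφ _ h4 h5]
        exact (hφ _ h4 h5).2.2
    rw [hfl t, hper, hb.add_int, hper, ← h3]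
  · have hφ' : ∀ t, 0 < t → t < 1 → 0 < 1 - φ t ∧ 1 - φ t < 1 := by
      intro t ht ht'
      have := hφ t ht ht'
      constructor <;> linarith [this.1, this.2.1]
    have hψ' : ∀ t, 0 < t → t < 1 → 0 < ψ (1 - t) ∧ ψ (1 - t) < 1 := by
      intro t ht ht'
      have := hψ (1 - t) (by linarith) (by linarith)
      exact ⟨this.1, this.2.1⟩
    obtain ⟨g, hg, hgφ⟩ := mono_ext (fun t => 1 - φ t) (fun t => ψ (1 - t)) hφ' hψ'
      (fun t ht ht' => by
        beta_reduce
        rw [sub_sub_cancel]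
        exact hψφ t ht ht')
      (fun t ht ht' => by
        beta_reduce
        rw [hφψ (1 - t) (by linarith) (by linarith)]
        ring)
      (fun s t hs hst ht => by
        have := hm s t hs hst ht
        beta_reduce
        linarith)
    have hb := hp1 g hg
    refine ⟨per g, hb, Or.inr fun t => ?_⟩
    have h3 : h (e (Int.fract t)) = e (-(per g (Int.fract t))) := by
      rcases (Int.fract_nonneg t).eq_or_lt with h4 | h4
      · rw [← h4, hp2 g hg 0 le_rfl zero_le_one, hg 0 (Or.inl le_rfl), h0, neg_zero]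
      · have h5 := Int.fract_lt_one t
        rw [hp2 g hg _ h4.le h5.le, hgφ _ h4 h5, (hφ _ h4 h5).2.2]
        have h6 := hper (-(1 - φ (Int.fract t))) 1
        rw [← h6]
        congr 1
        push_cast
        ring
    have h7 : -(per g (Int.fract t + (⌊t⌋ : ℤ))) =
        -(per g (Int.fract t)) + ((-⌊t⌋ : ℤ) : ℝ) := by
      rw [hb.add_int]
      push_cast
      ring
    rw [hfl t, hper, h7, hper, ← h3]

end Pool.Agent.W_d1cfb0_h45
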