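import Mathlib

/-!
# The uniform closure of a group of homeomorphisms of a compact metric space
-/

namespace Pool.Agent.W_d1cfb0_h45

variable {X : Type*} [PseudoMetricSpace X]

/-- The closure for uniform convergence of maps and inverses. -/
def clo (S : Subgroup (X ≃ₜ X)) : Set (X ≃ₜ X) :=
  {h | ∀ ε : ℝ, 0 < ε → ∃ g ∈ S, ∀ p, dist (g p) (h p) < ε ∧ dist (g⁻¹ p) (h⁻¹ p) < ε}

theorem sub_clo (S : Subgroup (X ≃ₜ X)) {g : X ≃ₜ X} (hg : g ∈ S) : g ∈ clo S := by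
  intro ε hε
  refine ⟨g, hg, fun p => ?_⟩
  rw [dist_self, dist_self]
  exact ⟨hε, hε⟩

theorem clo_inv (S : Subgroup (X ≃ₜ X)) {g : X ≃ₜ X} (hg : g ∈ clo S) : g⁻¹ ∈ clo S := by
  intro ε hε
  obtain ⟨f, hf, h⟩ := hg ε hε
  refine ⟨f⁻¹, S.inv_mem hf, fun p => ?_⟩
  rw [inv_inv, inv_inv]
  exact ⟨(h p).2, (h p).1⟩

theorem clo_cl (S : Subgroup (X ≃ₜ X)) (h : X ≃ₜ X)
    (hh : ∀ ε : ℝ, 0 < ε → ∃ g ∈ clo S, ∀ p, dist (g p) (h p) < ε ∧ dist (g⁻¹ p) (h⁻¹ p) < ε) :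
    h ∈ clo S := by
  intro ε hε
  obtain ⟨g, hg, h1⟩ := hh (ε / 2) (half_pos hε)
  obtain ⟨f, hf, h2⟩ := hg (ε / 2) (half_pos hε)
  refine ⟨f, hf, fun p => ⟨?_, ?_⟩⟩
  · have h3 := dist_triangle (f p) (g p) (h p)
    have h4 := (h1 p).1
    have h5 := (h2 p).1
    linarith
  · have h3 := dist_triangle (f⁻¹ p) (g⁻¹ p) (h⁻¹ p)
    have h4 := (h1 p).2
    have h5 := (h2 p).2
    linarith

/-- Uniform continuity of `f` and of `g⁻¹` on the compact space. -/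
theorem clo_mul [CompactSpace X] (S : Subgroup (X ≃ₜ X)) {f g : X ≃ₜ X} (hf : f ∈ clo S)
    (hg : g ∈ clo S) : f * g ∈ clo S := by
  intro ε hε
  have uf : UniformContinuous f := CompactSpace.uniformContinuous_of_continuous f.continuous
  have ug : UniformContinuous (g⁻¹ : X ≃ₜ X) :=
    CompactSpace.uniformContinuous_of_continuous (g⁻¹ : X ≃ₜ X).continuous
  obtain ⟨δ, hδ, h1⟩ := Metric.uniformContinuous_iff.1 uf (ε / 2) (half_pos hε)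
  obtain ⟨δ', hδ', h2⟩ := Metric.uniformContinuous_iff.1 ug (ε / 2) (half_pos hε)
  obtain ⟨g', hg', h3⟩ := hg (min δ (ε / 2)) (lt_min hδ (half_pos hε))
  obtain ⟨f', hf', h4⟩ := hf (min δ' (ε / 2)) (lt_min hδ' (half_pos hε))
  refine ⟨f' * g', S.mul_mem hf' hg', fun p => ⟨?_, ?_⟩⟩
  · change dist (f' (g' p)) (f (g p)) < ε
    have h5 := dist_triangle (f' (g' p)) (f (g' p)) (f (g p))
    have h6 := (lt_min_iff.1 (h4 (g' p)).1).2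
    have h7 := h1 (lt_min_iff.1 (h3 p).1).1
    linarith
  · rw [mul_inv_rev, mul_inv_rev]
    change dist (g'⁻¹ (f'⁻¹ p)) (g⁻¹ (f⁻¹ p)) < ε
    have h5 := dist_triangle (g'⁻¹ (f'⁻¹ p)) (g⁻¹ (f'⁻¹ p)) (g⁻¹ (f⁻¹ p))
    have h6 := (lt_min_iff.1 (h3 (f'⁻¹ p)).2).2
    have h7 := h2 (lt_min_iff.1 (h4 p).2).1
    linarith

end Pool.Agent.W_d1cfb0_h45
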