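import Mathlib

/-!
# Increasing homeomorphisms of the line

The group of increasing homeomorphisms of `ℝ` is `ℝ ≃o ℝ` (group structure: composition,
`RelIso.mul_apply : (a * b) x = a (b x)`, `RelIso.inv_apply_self : a⁻¹ (a x) = x`,
`RelIso.apply_inv_self : a (a⁻¹ x) = x`).
-/

namespace Pool.Agent.W_d1cfb0_h45

/-- `g` is the identity off the open interval `(a, b)`. -/
def SO (a b : ℝ) (g : ℝ ≃o ℝ) : Prop := ∀ x, x ≤ a ∨ b ≤ x → g x = x

/-- `b` commutes with the translation by `1`: it is the lift of an orientation preserving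
homeomorphism of the circle `ℝ / ℤ`. -/
def Lf (b : ℝ ≃o ℝ) : Prop := ∀ x, b (x + 1) = b x + 1

/-- `H` is closed under products and inverses, and it contains each `b` with property `P` which is a
uniform limit of elements of `H` with property `P`. -/
structure CG (P : (ℝ ≃o ℝ) → Prop) (H : Set (ℝ ≃o ℝ)) : Prop where
  one : 1 ∈ H
  mul : ∀ a ∈ H, ∀ b ∈ H, a * b ∈ H
  inv : ∀ a ∈ H, a⁻¹ ∈ H
  cl : ∀ b : ℝ ≃o ℝ, P b → (∀ ε : ℝ, 0 < ε → ∃ c ∈ H, P c ∧ ∀ x, |c⁻¹ (b x) - x| ≤ ε) → b ∈ H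

/-- The translation by `c`. -/
noncomputable def tr (c : ℝ) : ℝ ≃o ℝ := OrderIso.addRight c

/-- The affine map `x ↦ (1 + x) / 4`, which maps `(0, 1)` onto `(1/4, 1/2)`. -/
noncomputable def Aff : ℝ ≃o ℝ where
  toFun x := (1 + x) / 4
  invFun x := 4 * x - 1
  left_inv x := by ring
  right_inv x := by ring
  map_rel_iff' := by
    intro a b
    simp only [Equiv.coe_fn_mk]
    constructor <;> intro h <;> linarith

@[simp] theorem tr_apply (c x : ℝ) : tr c x = x + c := rfl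

@[simp] theorem Aff_apply (x : ℝ) : Aff x = (1 + x) / 4 := rfl

@[simp] theorem Aff_inv_apply (x : ℝ) : Aff⁻¹ x = 4 * x - 1 := rfl

theorem mul_app (a b : ℝ ≃o ℝ) (x : ℝ) : (a * b) x = a (b x) := rfl

theorem inv_app (a : ℝ ≃o ℝ) (x : ℝ) : a⁻¹ (a x) = x := RelIso.inv_apply_self a x

theorem app_inv (a : ℝ ≃o ℝ) (x : ℝ) : a (a⁻¹ x) = x := RelIso.apply_inv_self a x

theorem SO.one (a b : ℝ) : SO a b 1 := fun _ _ => rfl

theorem SO.mul {a b : ℝ} {g g' : ℝ ≃o ℝ} (h : SO a b g) (h' : SO a b g') : SO a b (g * g') := by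
  intro x hx
  rw [mul_app, h' x hx, h x hx]

theorem SO.inv {a b : ℝ} {g : ℝ ≃o ℝ} (h : SO a b g) : SO a b g⁻¹ := by
  intro x hx
  have := inv_app g x
  rw [h x hx] at this
  exact this

theorem SO.mono {a b a' b' : ℝ} {g : ℝ ≃o ℝ} (h : SO a b g) (ha : a' ≤ a) (hb : b ≤ b') :
    SO a' b' g := by
  intro x hx
  refine h x ?_
  rcases hx with hx | hx
  · exact Or.inl (hx.trans ha)
  · exact Or.inr (hb.trans hx)

theorem SO.maps {a b : ℝ} {g : ℝ ≃o ℝ} (h : SO a b g) {x : ℝ} (h1 : a < x) (h2 : x < b) :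
    a < g x ∧ g x < b := by
  have ha := h a (Or.inl le_rfl)
  have hb := h b (Or.inr le_rfl)
  constructor
  · have := g.lt_iff_lt.2 h1
    rwa [ha] at this
  · have := g.lt_iff_lt.2 h2
    rwa [hb] at this

theorem SO.maps' {a b : ℝ} {g : ℝ ≃o ℝ} (h : SO a b g) {x : ℝ} (h1 : a ≤ x) (h2 : x ≤ b) :
    a ≤ g x ∧ g x ≤ b := by
  have ha := h a (Or.inl le_rfl)
  have hb := h b (Or.inr le_rfl)
  constructor
  · have := g.le_iff_le.2 h1
    rwa [ha] at this
  · have := g.le_iff_le.2 h2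
    rwa [hb] at this

/-- The conjugate of a map supported in `(a, b)` by `t` is supported in `(t a, t b)`. -/
theorem SO.conj {a b : ℝ} {g : ℝ ≃o ℝ} (h : SO a b g) (t : ℝ ≃o ℝ) :
    SO (t a) (t b) (t * g * t⁻¹) := by
  intro x hx
  rw [mul_app, mul_app]
  have h1 : g (t⁻¹ x) = t⁻¹ x := by
    refine h _ ?_
    rcases hx with hx | hx
    · left
      have := t⁻¹.le_iff_le.2 hx
      rwa [inv_app] at this
    · right
      have := t⁻¹.le_iff_le.2 hx
      rwa [inv_app] at this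
  rw [h1, app_inv]

theorem Lf.one : Lf 1 := fun _ => rfl

theorem Lf.mul {b b' : ℝ ≃o ℝ} (h : Lf b) (h' : Lf b') : Lf (b * b') := by
  intro x
  rw [mul_app, mul_app, h', h]

theorem Lf.inv {b : ℝ ≃o ℝ} (h : Lf b) : Lf b⁻¹ := by
  intro x
  apply b.injective
  rw [app_inv, h, app_inv]

theorem Lf.add_int {b : ℝ ≃o ℝ} (h : Lf b) (x : ℝ) (n : ℤ) : b (x + n) = b x + n := by
  induction n using Int.induction_on with
  | zero => simp
  | succ n ih =>
    push_cast at ih ⊢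
    rw [← add_assoc, h, ih]
    ring
  | pred n ih =>
    push_cast at ih ⊢
    have h1 := h (x + (-(n : ℝ) - 1))
    have h2 : x + (-(n : ℝ) - 1) + 1 = x + -(n : ℝ) := by ring
    rw [h2, ih] at h1
    linarith

theorem Lf.tr (c : ℝ) : Lf (tr c) := by
  intro x
  simp only [tr_apply]
  ring

end Pool.Agent.W_d1cfb0_h45
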