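import Pool.Agent.W_d1cfb0_h45.Square

/-!
# Facts about the parametrisation of the boundary
-/

namespace Pool.Agent.W_d1cfb0_h45

open MeasureTheory

theorem BdFacts_wave (t : ℝ) :
    wave t = max 0 (min 1 (3 / 2 - 4 * ‖((t - 3 / 8 : ℝ) : UnitAddCircle)‖)) := by
  rw [UnitAddCircle.norm_eq]
  rfl

theorem BdFacts_norm {u : ℝ} (h : |u| ≤ 1 / 2) : ‖(u : UnitAddCircle)‖ = |u| := by
  refine (AddCircle.norm_coe_eq_abs_iff (p := 1) one_ne_zero).2 ?_
  rw [abs_one]
  exact h

theorem BdFacts_small {t : ℝ} (h : |t - 3 / 8| ≤ 1 / 2) :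
    wave t = max 0 (min 1 (3 / 2 - 4 * |t - 3 / 8|)) := by
  rw [BdFacts_wave, BdFacts_norm h]

theorem wave_add_one (t : ℝ) : wave (t + 1) = wave t := by
  rw [BdFacts_wave, BdFacts_wave]
  have h1 : ((t + 1 - 3 / 8 : ℝ) : UnitAddCircle) = ((t - 3 / 8 : ℝ) : UnitAddCircle) := by
    have h2 : t + 1 - 3 / 8 = t - 3 / 8 + 1 := by ring
    rw [h2, AddCircle.coe_add, AddCircle.coe_period, add_zero]
  rw [h1]

/-- Use `UnitAddCircle.norm_eq : ‖(x : UnitAddCircle)‖ = |x - round x|` for the continuity. -/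
theorem wave_cont : Continuous wave := by
  have h1 : wave = fun t : ℝ =>
      max 0 (min 1 (3 / 2 - 4 * ‖((t - 3 / 8 : ℝ) : UnitAddCircle)‖)) := by
    funext t
    exact BdFacts_wave t
  rw [h1]
  have h2 : Continuous fun t : ℝ => ((t - 3 / 8 : ℝ) : UnitAddCircle) :=
    (AddCircle.continuous_mk' (1 : ℝ)).comp (continuous_id.sub continuous_const)
  exact continuous_const.max (continuous_const.min
    (continuous_const.sub (continuous_const.mul h2.norm)))

theorem wave_neg (t : ℝ) : wave (3 / 4 - t) = wave t := by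
  rw [BdFacts_wave, BdFacts_wave]
  have h2 : 3 / 4 - t - 3 / 8 = -(t - 3 / 8) := by ring
  rw [h2, AddCircle.coe_neg, norm_neg]

theorem wave_a {t : ℝ} (h0 : 0 ≤ t) (h1 : t ≤ 1 / 4) : wave t = 4 * t := by
  have h2 : |t - 3 / 8| = 3 / 8 - t := by
    rw [abs_of_nonpos (by linarith)]
    ring
  rw [BdFacts_small (by rw [h2]; linarith), h2, min_eq_right (by linarith),
    max_eq_right (by linarith)]
  ring

theorem wave_b {t : ℝ} (h0 : 1 / 4 ≤ t) (h1 : t ≤ 1 / 2) : wave t = 1 := by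
  have h2 : |t - 3 / 8| ≤ 1 / 8 := by
    rw [abs_le]
    constructor <;> linarith
  rw [BdFacts_small (by linarith), min_eq_left (by linarith), max_eq_right (by norm_num)]

theorem wave_c {t : ℝ} (h0 : 1 / 2 ≤ t) (h1 : t ≤ 3 / 4) : wave t = 3 - 4 * t := by
  have h2 : |t - 3 / 8| = t - 3 / 8 := abs_of_nonneg (by linarith)
  rw [BdFacts_small (by rw [h2]; linarith), h2, min_eq_right (by linarith),
    max_eq_right (by linarith)]
  ring

theorem wave_d {t : ℝ} (h0 : 3 / 4 ≤ t) (h1 : t ≤ 1) : wave t = 0 := by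
  rcases le_total t (7 / 8) with h | h
  · have h2 : |t - 3 / 8| = t - 3 / 8 := abs_of_nonneg (by linarith)
    rw [BdFacts_small (by rw [h2]; linarith), h2]
    exact max_eq_left ((min_le_right _ _).trans (by linarith))
  · have h3 : wave t = wave (t - 1) := by
      have h4 := wave_add_one (t - 1)
      rw [sub_add_cancel] at h4
      exact h4
    have h2 : |t - 1 - 3 / 8| = 3 / 8 - (t - 1) := by
      rw [abs_of_nonpos (by linarith)]
      ring
    rw [h3, BdFacts_small (by rw [h2]; linarith), h2]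
    exact max_eq_left ((min_le_right _ _).trans (by linarith))

theorem bd_cont : Continuous bd := by
  refine Continuous.subtype_mk ?_ _
  refine (PiLp.continuous_toLp 2 _).comp (continuous_pi fun i => ?_)
  fin_cases i
  · exact wave_cont
  · exact wave_cont.comp (continuous_id.sub continuous_const)

theorem bd_add_int (t : ℝ) (n : ℤ) : bd (t + n) = bd t := by
  have hp : Function.Periodic wave 1 := wave_add_one
  have h1 : ∀ x : ℝ, wave (x + n) = wave x := by
    intro x
    have h2 := hp.int_mul n x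
    rwa [mul_one] at h2
  apply Subtype.ext
  ext i
  fin_cases i
  · show wave (t + n) = wave t
    exact h1 t
  · show wave (t + n - 1 / 4) = wave (t - 1 / 4)
    rw [← h1 (t - 1 / 4)]
    congr 1
    ring

theorem BdFacts_quarter {t : ℝ} (h0 : 0 ≤ t) (h1 : t < 1) :
    (0 ≤ t ∧ t < 1 / 4 ∧ wave t = 4 * t ∧ wave (t - 1 / 4) = 0) ∨
    (1 / 4 ≤ t ∧ t < 1 / 2 ∧ wave t = 1 ∧ wave (t - 1 / 4) = 4 * t - 1) ∨
    (1 / 2 ≤ t ∧ t < 3 / 4 ∧ wave t = 3 - 4 * t ∧ wave (t - 1 / 4) = 1) ∨
    (3 / 4 ≤ t ∧ t < 1 ∧ wave t = 0 ∧ wave (t - 1 / 4) = 4 - 4 * t) := by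
  rcases lt_or_ge t (1 / 4) with h | h
  · left
    refine ⟨h0, h, wave_a h0 h.le, ?_⟩
    rw [← wave_add_one]
    exact wave_d (by linarith) (by linarith)
  rcases lt_or_ge t (1 / 2) with h' | h'
  · right; left
    refine ⟨h, h', wave_b h h'.le, ?_⟩
    rw [wave_a (by linarith) (by linarith)]
    ring
  rcases lt_or_ge t (3 / 4) with h'' | h''
  · right; right; left
    exact ⟨h', h'', wave_c h' h''.le, wave_b (by linarith) (by linarith)⟩
  · right; right; right
    refine ⟨h'', h1, wave_d h'' h1.le, ?_⟩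
    rw [wave_c (by linarith) (by linarith)]
    ring

theorem BdFacts_inj {s t : ℝ} (h0 : 0 ≤ s) (h1 : s < 1) (h2 : 0 ≤ t) (h3 : t < 1)
    (h : bd s = bd t) : s = t := by
  have e0 : wave s = wave t := by
    have := congrArg (fun p : Sq => (p : E2) 0) h
    exact this
  have e1 : wave (s - 1 / 4) = wave (t - 1 / 4) := by
    have := congrArg (fun p : Sq => (p : E2) 1) h
    exact this
  rcases BdFacts_quarter h0 h1 with ⟨a1, a2, a3, a4⟩ | ⟨a1, a2, a3, a4⟩ | ⟨a1, a2, a3, a4⟩ |
    ⟨a1, a2, a3, a4⟩ <;>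
  rcases BdFacts_quarter h2 h3 with ⟨b1, b2, b3, b4⟩ | ⟨b1, b2, b3, b4⟩ | ⟨b1, b2, b3, b4⟩ |
    ⟨b1, b2, b3, b4⟩ <;>
  · rw [a3, b3] at e0
    rw [a4, b4] at e1
    linarith

theorem bd_eq_iff (s t : ℝ) : bd s = bd t ↔ ∃ n : ℤ, s = t + n := by
  constructor
  · intro h
    have hs : bd s = bd (Int.fract s) := by
      rw [← bd_add_int (Int.fract s) ⌊s⌋, Int.fract_add_floor]
    have ht : bd t = bd (Int.fract t) := by
      rw [← bd_add_int (Int.fract t) ⌊t⌋, Int.fract_add_floor]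
    rw [hs, ht] at h
    have key := BdFacts_inj (Int.fract_nonneg s) (Int.fract_lt_one s) (Int.fract_nonneg t)
      (Int.fract_lt_one t) h
    refine ⟨⌊s⌋ - ⌊t⌋, ?_⟩
    have h1 := Int.fract_add_floor s
    have h2 := Int.fract_add_floor t
    push_cast
    linarith
  · rintro ⟨n, rfl⟩
    exact bd_add_int t n

theorem onB_iff (p : Sq) : OnB p ↔ ∃ t, bd t = p := by
  constructor
  · rintro ⟨i, hi⟩
    have hp0 := p.2 0
    have hp1 := p.2 1
    obtain ⟨a0, a1⟩ := hp0
    obtain ⟨b0, b1⟩ := hp1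
    set x : ℝ := (p : E2) 0 with hx
    set y : ℝ := (p : E2) 1 with hy
    have hcase : x = 0 ∨ x = 1 ∨ y = 0 ∨ y = 1 := by
      fin_cases i
      · rcases hi with hi | hi
        · exact Or.inl hi
        · exact Or.inr (Or.inl hi)
      · rcases hi with hi | hi
        · exact Or.inr (Or.inr (Or.inl hi))
        · exact Or.inr (Or.inr (Or.inr hi))
    have hfin : ∀ t : ℝ, wave t = x → wave (t - 1 / 4) = y → bd t = p := by
      intro t h1 h2
      apply Subtype.ext
      ext i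
      fin_cases i
      · exact h1
      · exact h2
    rcases hcase with h | h | h | h
    · refine ⟨1 - y / 4, hfin _ ?_ ?_⟩
      · rw [wave_d (by linarith) (by linarith), h]
      · rw [wave_c (by linarith) (by linarith)]
        ring
    · refine ⟨(1 + y) / 4, hfin _ ?_ ?_⟩
      · rw [wave_b (by linarith) (by linarith), h]
      · rw [wave_a (by linarith) (by linarith)]
        ring
    · refine ⟨x / 4, hfin _ ?_ ?_⟩
      · rw [wave_a (by linarith) (by linarith)]
        ring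
      · rw [← wave_add_one, wave_d (by linarith) (by linarith), h]
    · refine ⟨(3 - x) / 4, hfin _ ?_ ?_⟩
      · rw [wave_c (by linarith) (by linarith)]
        ring
      · rw [wave_b (by linarith) (by linarith), h]
  · rintro ⟨t, rfl⟩
    have ht : bd t = bd (Int.fract t) := by
      rw [← bd_add_int (Int.fract t) ⌊t⌋, Int.fract_add_floor]
    rw [ht]
    have h0 := Int.fract_nonneg t
    have h1 := Int.fract_lt_one t
    set u : ℝ := Int.fract t with hu
    rcases BdFacts_quarter h0 h1 with ⟨h2, h3, h4, h5⟩ | ⟨h2, h3, h4, h5⟩ | ⟨h2, h3, h4, h5⟩ |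
      ⟨h2, h3, h4, h5⟩
    · exact ⟨1, Or.inl (by rw [bd_one, h5])⟩
    · exact ⟨0, Or.inr (by rw [bd_zero, h4])⟩
    · exact ⟨1, Or.inr (by rw [bd_one, h5])⟩
    · exact ⟨0, Or.inl (by rw [bd_zero, h4])⟩

end Pool.Agent.W_d1cfb0_h45
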