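import Mathlib

/-!
# The square and the parametrisation of its boundary
-/

namespace Pool.Agent.W_d1cfb0_h45

open MeasureTheory

/-- The plane. -/
abbrev E2 := EuclideanSpace ℝ (Fin 2)

/-- The unit square. -/
def Sq : Set E2 := {x | ∀ i, x i ∈ Set.Icc (0 : ℝ) 1}

/-- `h` preserves area. -/
def PV (h : Sq ≃ₜ Sq) : Prop :=
  ∀ A : Set E2, MeasurableSet A → A ⊆ Sq →
    volume (Subtype.val '' (h '' (Subtype.val ⁻¹' A))) = volume A

/-- The boundary of the square. -/
def OnB (p : Sq) : Prop := ∃ i, (p : E2) i = 0 ∨ (p : E2) i = 1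

/-- The trapezoid wave of period `1`: `4 t` on `[0,1/4]`, `1` on `[1/4,1/2]`, `3 - 4 t` on `[1/2,3/4]`,
`0` on `[3/4,1]`. -/
noncomputable def wave (t : ℝ) : ℝ := max 0 (min 1 (3 / 2 - 4 * |t - 3 / 8 - round (t - 3 / 8)|))

theorem wave_nonneg (t : ℝ) : 0 ≤ wave t := le_max_left _ _

theorem wave_le_one (t : ℝ) : wave t ≤ 1 := max_le zero_le_one (min_le_left _ _)

/-- The boundary of the square, parametrised anticlockwise from the corner `(0,0)` with period `1`. -/
noncomputable def bd (t : ℝ) : Sq :=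
  ⟨!₂[wave t, wave (t - 1 / 4)], by
    intro i
    fin_cases i
    · exact ⟨wave_nonneg _, wave_le_one _⟩
    · exact ⟨wave_nonneg _, wave_le_one _⟩⟩

theorem bd_zero (t : ℝ) : (bd t : E2) 0 = wave t := rfl

theorem bd_one (t : ℝ) : (bd t : E2) 1 = wave (t - 1 / 4) := rfl

theorem isCompact_Sq : IsCompact Sq := by
  have h : IsCompact (Set.pi Set.univ (fun _ : Fin 2 => Set.Icc (0 : ℝ) 1)) :=
    isCompact_univ_pi (fun _ => isCompact_Icc)
  have h2 := h.image (PiLp.continuous_toLp 2 (fun _ : Fin 2 => ℝ))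
  convert h2 using 1
  ext x
  constructor
  · intro hx
    exact ⟨fun i => x i, fun i _ => hx i, rfl⟩
  · rintro ⟨y, hy, rfl⟩ i
    exact hy i (Set.mem_univ i)

instance : CompactSpace Sq := isCompact_iff_compactSpace.1 isCompact_Sq

end Pool.Agent.W_d1cfb0_h45
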