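import Pool.Agent.W_d1cfb0_h45.Square
import Pool.Agent.W_bb4b37_h53.BrouwerA

/-!
# Homeomorphisms of the square preserve the boundary
-/

namespace Pool.Agent.W_d1cfb0_h45

open MeasureTheory

/-- The point `q + σ x / max ‖x‖ (1/2)` of the square. -/
theorem Inv_mem {q : Sq} {σ : ℝ} (hσ : 0 < σ) (h0 : ∀ i, σ ≤ (q : E2) i)
    (h1 : ∀ i, σ ≤ 1 - (q : E2) i) (x : Fin 2 → ℝ) :
    (WithLp.toLp 2 fun i => (q : E2) i + σ * (x i / max ‖x‖ (1 / 2)) : E2) ∈ Sq := by
  intro i
  have hm : (0 : ℝ) < max ‖x‖ (1 / 2) := lt_max_of_lt_right (by norm_num)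
  have h2 : |x i / max ‖x‖ (1 / 2)| ≤ 1 := by
    rw [abs_div, abs_of_pos hm, div_le_one hm]
    exact (norm_le_pi_norm x i).trans (le_max_left _ _)
  have h3 := abs_le.1 h2
  have h4 := h0 i
  have h5 := h1 i
  constructor
  · show 0 ≤ (q : E2) i + σ * (x i / max ‖x‖ (1 / 2))
    nlinarith [h3.1]
  · show (q : E2) i + σ * (x i / max ‖x‖ (1 / 2)) ≤ 1
    nlinarith [h3.2]

/-- Convex combination with the centre. -/
theorem Inv_comb {a l : ℝ} (ha : a ∈ Set.Icc (0 : ℝ) 1) (hl : l ∈ Set.Icc (0 : ℝ) 1) :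
    l * a + (1 - l) / 2 ∈ Set.Icc (0 : ℝ) 1 := by
  obtain ⟨ha0, ha1⟩ := ha
  obtain ⟨hl0, hl1⟩ := hl
  constructor
  · nlinarith [mul_nonneg hl0 ha0]
  · nlinarith [mul_nonneg hl0 (sub_nonneg.2 ha1)]

theorem Inv_ne {a l : ℝ} (ha : a ∈ Set.Icc (0 : ℝ) 1) (hl : l ∈ Set.Icc (0 : ℝ) 1) (hl1 : l < 1) :
    l * a + (1 - l) / 2 ≠ 0 ∧ l * a + (1 - l) / 2 ≠ 1 := by
  obtain ⟨ha0, ha1⟩ := ha
  obtain ⟨hl0, _⟩ := hl
  constructor
  · have := mul_nonneg hl0 ha0
    intro h
    linarith
  · have := mul_nonneg hl0 (sub_nonneg.2 ha1)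
    intro h
    nlinarith

/-- Proof. Suppose that `p` is on the boundary and `q = h p` is not. Let `c = (1/2,1/2)` and choose
`σ > 0` with `q + σ [-1,1]^2 ⊆ Sq`. For `x` in `K = [-1,1]^2` with sup norm `ρ = ‖x‖ ≤ 1` put
`F x = ρ • h⁻¹ (q + σ • (ρ⁻¹ • x)) + (1 - ρ) • c` (and `F 0 = c`), a point of the square (convex),
continuous in `x` (at `0` because `h⁻¹` is bounded). `F x ≠ p`: some coordinate `p i` is `0` or `1`; if
`ρ < 1` the `i`-th coordinate of `F x` is in the open interval `(0,1)`; if `ρ = 1` then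
`F x = h⁻¹ (q + σ x) ≠ h⁻¹ q = p`. So `G x = h (F x) ≠ q`, `G` is continuous, and `G x = q + σ x` if
`ρ = 1`. The map `f x = - (G x - q) / ‖G x - q‖` (sup norm) maps `K` continuously to `K`; by
`Pool.Agent.KK.brouwer_cube` it has a fixed point `x`, `‖x‖ = 1`, so `G x - q = σ x` and
`f x = -x`, a contradiction. -/
theorem onB_map (h : Sq ≃ₜ Sq) (p : Sq) (hp : OnB p) : OnB (h p) := by
  by_contra hq
  set q : Sq := h p with hqdef
  have hq0 : ∀ i, 0 < (q : E2) i := by
    intro i
    rcases (q.2 i).1.lt_or_eq with h1 | h1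
    · exact h1
    · exact absurd ⟨i, Or.inl h1.symm⟩ hq
  have hq1 : ∀ i, 0 < 1 - (q : E2) i := by
    intro i
    rcases (q.2 i).2.lt_or_eq with h1 | h1
    · linarith
    · exact absurd ⟨i, Or.inr h1⟩ hq
  set σ : ℝ := min (min ((q : E2) 0) (1 - (q : E2) 0)) (min ((q : E2) 1) (1 - (q : E2) 1)) with hσ
  have hσ0 : 0 < σ := lt_min (lt_min (hq0 0) (hq1 0)) (lt_min (hq0 1) (hq1 1))
  have hσq : ∀ i, σ ≤ (q : E2) i := by
    intro i
    fin_cases i
    · exact (min_le_left _ _).trans (min_le_left _ _)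
    · exact (min_le_right _ _).trans (min_le_left _ _)
  have hσq' : ∀ i, σ ≤ 1 - (q : E2) i := by
    intro i
    fin_cases i
    · exact (min_le_left _ _).trans (min_le_right _ _)
    · exact (min_le_right _ _).trans (min_le_right _ _)
  have hmpos : ∀ x : Fin 2 → ℝ, max ‖x‖ (1 / 2) ≠ 0 := fun x =>
    (lt_max_of_lt_right (by norm_num : (0 : ℝ) < 1 / 2)).ne'
  -- the maps
  set Y : (Fin 2 → ℝ) → Sq := fun x =>
    ⟨WithLp.toLp 2 fun i => (q : E2) i + σ * (x i / max ‖x‖ (1 / 2)), Inv_mem hσ0 hσq hσq' x⟩ with hY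
  have hYc : Continuous Y := by
    refine Continuous.subtype_mk ?_ _
    refine (PiLp.continuous_toLp 2 _).comp (continuous_pi fun i => ?_)
    exact continuous_const.add (continuous_const.mul ((continuous_apply i).div
      (continuous_norm.max continuous_const) hmpos))
  set l : (Fin 2 → ℝ) → ℝ := fun x => min 1 (max 0 (2 * ‖x‖ - 1)) with hl
  have hlc : Continuous l := by
    rw [hl]
    fun_prop
  have hlm : ∀ x, l x ∈ Set.Icc (0 : ℝ) 1 := fun x =>
    ⟨le_min zero_le_one (le_max_left _ _), min_le_left _ _⟩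
  set F : (Fin 2 → ℝ) → Sq := fun x =>
    ⟨WithLp.toLp 2 fun i => l x * (h.symm (Y x) : E2) i + (1 - l x) / 2,
      fun i => Inv_comb ((h.symm (Y x)).2 i) (hlm x)⟩ with hF
  have hFc : Continuous F := by
    refine Continuous.subtype_mk ?_ _
    refine (PiLp.continuous_toLp 2 _).comp (continuous_pi fun i => ?_)
    have h1 : Continuous fun x => (h.symm (Y x) : E2) i :=
      (EuclideanSpace.proj i : E2 →L[ℝ] ℝ).continuous.comp
        (continuous_subtype_val.comp (h.symm.continuous.comp hYc))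
    exact (hlc.mul h1).add ((continuous_const.sub hlc).div_const 2)
  have hFi : ∀ x i, (F x : E2) i = l x * (h.symm (Y x) : E2) i + (1 - l x) / 2 :=
    fun x i => rfl
  have hYi : ∀ x i, (Y x : E2) i = (q : E2) i + σ * (x i / max ‖x‖ (1 / 2)) := fun x i => rfl
  -- on the sphere
  have hone : ∀ x : Fin 2 → ℝ, l x = 1 → F x = h.symm (Y x) := by
    intro x hx
    apply Subtype.ext
    ext i
    rw [hFi, hx]
    ring
  have hFp : ∀ x, F x ≠ p := by
    intro x hx
    by_cases h1 : l x = 1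
    · rw [hone x h1] at hx
      have h2 : Y x = q := by
        rw [hqdef, ← hx, h.apply_symm_apply]
      have h3 : ∀ i, x i = 0 := by
        intro i
        have h4 : (Y x : E2) i = (q : E2) i := by rw [h2]
        rw [hYi] at h4
        have h5 : σ * (x i / max ‖x‖ (1 / 2)) = 0 := by linarith
        rcases mul_eq_zero.1 h5 with h6 | h6
        · exact absurd h6 hσ0.ne'
        · rcases div_eq_zero_iff.1 h6 with h7 | h7
          · exact h7
          · exact absurd h7 (hmpos x)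
      have h4 : x = 0 := funext h3
      rw [hl] at h1
      simp only [h4, norm_zero] at h1
      norm_num at h1
    · obtain ⟨i, hi⟩ := hp
      have h2 := Inv_ne ((h.symm (Y x)).2 i) (hlm x) (lt_of_le_of_ne (hlm x).2 h1)
      rw [← hFi, hx] at h2
      rcases hi with hi | hi
      · exact h2.1 hi
      · exact h2.2 hi
  set g : (Fin 2 → ℝ) → (Fin 2 → ℝ) := fun x i => (h (F x) : E2) i - (q : E2) i with hg
  have hgc : Continuous g := by
    refine continuous_pi fun i => ?_
    have h1 : Continuous fun x => (h (F x) : E2) i :=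
      (EuclideanSpace.proj i : E2 →L[ℝ] ℝ).continuous.comp
        (continuous_subtype_val.comp (h.continuous.comp hFc))
    exact h1.sub continuous_const
  have hg0 : ∀ x, g x ≠ 0 := by
    intro x hx
    apply hFp x
    apply h.injective
    rw [← hqdef]
    apply Subtype.ext
    ext i
    have := congrFun hx i
    simp only [hg, Pi.zero_apply] at this
    linarith
  set f : (Fin 2 → ℝ) → (Fin 2 → ℝ) := fun x => -(‖g x‖⁻¹ • g x) with hf
  have hfc : Continuous f :=
    ((hgc.norm.inv₀ fun x => norm_ne_zero_iff.2 (hg0 x)).smul hgc).neg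
  have hfn : ∀ x, ‖f x‖ = 1 := by
    intro x
    have h1 : ‖g x‖ ≠ 0 := norm_ne_zero_iff.2 (hg0 x)
    rw [hf]
    simp only
    rw [norm_neg, norm_smul, norm_inv, norm_norm, inv_mul_cancel₀ h1]
  obtain ⟨x, _, hx⟩ := Pool.Agent.KK.brouwer_cube 2 f hfc.continuousOn (by
    intro x _ i
    have h1 := norm_le_pi_norm (f x) i
    rw [hfn x, Real.norm_eq_abs] at h1
    exact abs_le.1 h1)
  have hxn : ‖x‖ = 1 := by
    rw [← hx]
    exact hfn x
  have hlx : l x = 1 := by
    rw [hl]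
    simp only [hxn]
    norm_num
  have hgx : g x = σ • x := by
    funext i
    simp only [hg]
    rw [hone x hlx, h.apply_symm_apply, hYi, hxn, Pi.smul_apply, smul_eq_mul]
    norm_num
  have h1 : f x = -x := by
    rw [hf]
    simp only
    rw [hgx, norm_smul, hxn, Real.norm_eq_abs, abs_of_pos hσ0, mul_one, smul_smul,
      inv_mul_cancel₀ hσ0.ne', one_smul]
  rw [hx] at h1
  have h2 : x = 0 := by
    have := self_eq_neg.1 h1
    exact this
  rw [h2, norm_zero] at hxn
  exact zero_ne_one hxn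

end Pool.Agent.W_d1cfb0_h45
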