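import Pool.Agent.W_d1cfb0_h45.Square

/-!
# The group of area preserving homeomorphisms of the square

Product of homeomorphisms = composition: `(f * g) p = f (g p)`, `g⁻¹ = g.symm`.
-/

namespace Pool.Agent.W_d1cfb0_h45

open MeasureTheory

theorem hmul_app (f g : Sq ≃ₜ Sq) (p : Sq) : (f * g) p = f (g p) := rfl

theorem hinv_app (f : Sq ≃ₜ Sq) (p : Sq) : f⁻¹ (f p) = p := f.symm_apply_apply p

theorem happ_inv (f : Sq ≃ₜ Sq) (p : Sq) : f (f⁻¹ p) = p := f.apply_symm_apply p

theorem PVG_val {A : Set E2} (hA : A ⊆ Sq) :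
    Subtype.val '' ((Subtype.val : Sq → E2) ⁻¹' A) = A := by
  rw [Subtype.image_preimage_coe]
  exact Set.inter_eq_right.2 hA

theorem PVG_sub (S : Set Sq) : Subtype.val '' S ⊆ Sq := by
  rintro x ⟨y, _, rfl⟩
  exact y.2

theorem PV.one : PV 1 := by
  intro A _ hs
  have h1 : (1 : Sq ≃ₜ Sq) '' ((Subtype.val : Sq → E2) ⁻¹' A) = Subtype.val ⁻¹' A :=
    Set.image_id _
  rw [h1, PVG_val hs]

/-- The image of a measurable subset of the square under a homeomorphism of the square is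
measurable. -/
theorem meas_image (h : Sq ≃ₜ Sq) {A : Set E2} (hA : MeasurableSet A) :
    MeasurableSet (Subtype.val '' (h '' (Subtype.val ⁻¹' A))) := by
  have hSq : MeasurableSet Sq := isCompact_Sq.measurableSet
  refine MeasurableSet.subtype_image hSq ?_
  exact h.measurableEmbedding.measurableSet_image.2 (measurable_subtype_coe hA)

theorem PV.mul {f g : Sq ≃ₜ Sq} (hf : PV f) (hg : PV g) : PV (f * g) := by
  intro A hA hs
  have h1 := hf _ (meas_image g hA) (PVG_sub _)
  rw [Set.preimage_image_eq _ Subtype.val_injective, hg A hA hs] at h1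
  rw [← h1]
  congr 2
  rw [← Set.image_comp]
  rfl

theorem PV.inv {f : Sq ≃ₜ Sq} (hf : PV f) : PV f⁻¹ := by
  intro A hA hs
  have h1 := hf _ (meas_image f⁻¹ hA) (PVG_sub _)
  rw [Set.preimage_image_eq _ Subtype.val_injective] at h1
  rw [← h1]
  have h2 : f '' ((f⁻¹ : Sq ≃ₜ Sq) '' ((Subtype.val : Sq → E2) ⁻¹' A)) = Subtype.val ⁻¹' A := by
    ext x
    constructor
    · rintro ⟨y, ⟨z, hz, rfl⟩, rfl⟩
      rw [happ_inv]
      exact hz
    · intro hx
      exact ⟨f⁻¹ x, ⟨x, hx, rfl⟩, happ_inv f x⟩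
  rw [h2, PVG_val hs]

/-- The reflection in the diagonal, `(x, y) ↦ (y, x)`; `wave t = wave (3 / 4 - t)` (period `1`) gives
`swap (bd t) = bd (-t)`. -/
theorem exists_swap : ∃ r : Sq ≃ₜ Sq, PV r ∧ ∀ p : Sq, (r p : E2) 0 = (p : E2) 1 ∧ (r p : E2) 1 = (p : E2) 0 := by
  let L : E2 ≃ₗᵢ[ℝ] E2 := LinearIsometryEquiv.piLpCongrLeft 2 ℝ ℝ (Equiv.swap (0 : Fin 2) 1)
  have hL0 : ∀ x : E2, L x 0 = x 1 := fun x => by
    simp [L, LinearIsometryEquiv.piLpCongrLeft_apply, Equiv.piCongrLeft']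
  have hL1 : ∀ x : E2, L x 1 = x 0 := fun x => by
    simp [L, LinearIsometryEquiv.piLpCongrLeft_apply, Equiv.piCongrLeft']
  have hSq : Sq = L.toHomeomorph ⁻¹' Sq := by
    ext x
    constructor
    · intro hx i
      show L x i ∈ _
      fin_cases i
      · show L x 0 ∈ _
        rw [hL0]
        exact hx 1
      · show L x 1 ∈ _
        rw [hL1]
        exact hx 0
    · intro hx i
      fin_cases i
      · show x 0 ∈ _
        rw [← hL1]
        exact hx 1
      · show x 1 ∈ _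
        rw [← hL0]
        exact hx 0
  refine ⟨L.toHomeomorph.sets hSq, ?_, ?_⟩
  · intro A hA hs
    have h1 : Subtype.val '' ((L.toHomeomorph.sets hSq) '' ((Subtype.val : Sq → E2) ⁻¹' A)) =
        L.symm ⁻¹' A := by
      ext x
      constructor
      · rintro ⟨y, ⟨z, hz, rfl⟩, rfl⟩
        show L.symm (L z) ∈ A
        rw [L.symm_apply_apply]
        exact hz
      · intro hx
        have hx' : L.symm x ∈ A := hx
        refine ⟨L.toHomeomorph.sets hSq ⟨L.symm x, hs hx'⟩, ⟨⟨L.symm x, hs hx'⟩, hx', rfl⟩, ?_⟩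
        show L (L.symm x) = x
        exact L.apply_symm_apply x
    rw [h1]
    exact L.symm.measurePreserving.measure_preimage hA.nullMeasurableSet
  · intro p
    exact ⟨hL0 p, hL1 p⟩

end Pool.Agent.W_d1cfb0_h45
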