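import Pool.Agent.W_d1cfb0_h45.Ext
import Pool.Agent.W_d1cfb0_h45.PVG

/-!
# Every lift extends to the square
-/

namespace Pool.Agent.W_d1cfb0_h45

/-- A lift has bounded displacement (`b x - x` is continuous with period `1`). -/
theorem Lf.bdd {b : ℝ ≃o ℝ} (hb : Lf b) : ∃ M : ℝ, 0 < M ∧ ∀ x, |b x - x| ≤ M := by
  refine ⟨|b 0| + 2, by positivity, fun x => ?_⟩
  have h1 : b x = b (Int.fract x) + ⌊x⌋ := by
    rw [← hb.add_int]
    congr 1
    exact (Int.fract_add_floor x).symm
  have h2 : x = Int.fract x + ⌊x⌋ := (Int.fract_add_floor x).symm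
  have h3 : b 0 ≤ b (Int.fract x) := b.le_iff_le.2 (Int.fract_nonneg x)
  have h4 : b (Int.fract x) ≤ b 1 := b.le_iff_le.2 (Int.fract_lt_one x).le
  have h5 : b 1 = b 0 + 1 := by
    have := hb 0
    rwa [zero_add] at this
  have h6 := Int.fract_nonneg x
  have h7 := Int.fract_lt_one x
  have h8 := neg_abs_le (b 0)
  have h9 := le_abs_self (b 0)
  have h10 : b x - x = b (Int.fract x) - Int.fract x := by
    rw [h1]
    linarith
  rw [h10, abs_le]
  constructor <;> linarith

/-- The convex combination of the identity and `b`. -/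
theorem exists_interp {b : ℝ ≃o ℝ} (hb : Lf b) (t : ℝ) (h0 : 0 ≤ t) (h1 : t ≤ 1) :
    ∃ c : ℝ ≃o ℝ, Lf c ∧ ∀ x, c x = (1 - t) * x + t * b x := by
  obtain ⟨M, hM, hbM⟩ := hb.bdd
  set c : ℝ → ℝ := fun x => (1 - t) * x + t * b x with hc
  have hmono : StrictMono c := by
    intro x y hxy
    have h2 : b x < b y := b.lt_iff_lt.2 hxy
    have h3 : 0 < (1 - t) * (y - x) + t * (b y - b x) := by
      rcases lt_or_eq_of_le h1 with h4 | h4
      · have h5 : 0 < (1 - t) * (y - x) := mul_pos (by linarith) (by linarith)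
        have h6 : 0 ≤ t * (b y - b x) := mul_nonneg h0 (by linarith)
        linarith
      · rw [h4]
        linarith
    simp only [hc]
    linarith
  have hcont : Continuous c := by
    have := b.continuous
    simp only [hc]
    fun_prop
  have hbd : ∀ x, |c x - x| ≤ M := by
    intro x
    have h2 : c x - x = t * (b x - x) := by
      simp only [hc]
      ring
    rw [h2, abs_mul, abs_of_nonneg h0]
    exact (mul_le_of_le_one_left (abs_nonneg _) h1).trans (hbM x)
  have htop : Filter.Tendsto c Filter.atTop Filter.atTop := by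
    refine Filter.tendsto_atTop_mono (f := fun x => x + -M) (fun x => ?_)
      (Filter.tendsto_atTop_add_const_right _ _ Filter.tendsto_id)
    have := (abs_le.1 (hbd x)).1
    linarith
  have hbot : Filter.Tendsto c Filter.atBot Filter.atBot := by
    refine Filter.tendsto_atBot_mono (f := fun x => x + M) (fun x => ?_)
      (Filter.tendsto_atBot_add_const_right _ _ Filter.tendsto_id)
    have := (abs_le.1 (hbd x)).2
    linarith
  refine ⟨hmono.orderIsoOfSurjective c (hcont.surjective htop hbot), ?_, fun x => rfl⟩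
  intro x
  change (1 - t) * (x + 1) + t * b (x + 1) = (1 - t) * x + t * b x + 1
  rw [hb x]
  ring

/-- Proof. `δ` from `small_ext 1`, `M` from `Lf.bdd`, `N` with `M / N ≤ δ`, `c i` the
convex combination with `t = i / N`; `c (i+1) * (c i)⁻¹` has displacement at most `M / N` (put
`y = c i x`: `c (i+1) x - c i x = (b x - x) / N`), so it has an extension; by induction on `i` each
`c i` has a PV extension (`PV.mul`, `PV.one`); `c 0 = 1` and `c N = b`. -/
theorem exists_lift {b : ℝ ≃o ℝ} (hb : Lf b) :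
    ∃ h : Sq ≃ₜ Sq, PV h ∧ ∀ t, h (bd t) = bd (b t) := by
  obtain ⟨δ, hδ, hext⟩ := small_ext 1 one_pos
  obtain ⟨M, hM, hbM⟩ := hb.bdd
  obtain ⟨N, hN⟩ := exists_nat_gt (M / δ)
  have hN0 : (0 : ℝ) < N := lt_trans (div_pos hM hδ) hN
  have hMN : M / N ≤ δ := by
    rw [div_lt_iff₀ hδ] at hN
    rw [div_le_iff₀ hN0]
    linarith
  have key : ∀ i : ℕ, i ≤ N → ∀ c : ℝ ≃o ℝ, Lf c →
      (∀ x, c x = (1 - (i : ℝ) / N) * x + (i : ℝ) / N * b x) →
      ∃ h : Sq ≃ₜ Sq, PV h ∧ ∀ t, h (bd t) = bd (c t) := by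
    intro i
    induction i with
    | zero =>
      intro _ c _ hc
      refine ⟨1, PV.one, fun t => ?_⟩
      rw [hc t]
      simp
    | succ i ih =>
      intro hi c' hc' hcx'
      have hi' : (i : ℝ) / N ≤ 1 := by
        rw [div_le_one hN0]
        exact_mod_cast (Nat.le_of_succ_le hi)
      obtain ⟨c, hc, hcx⟩ := exists_interp hb ((i : ℝ) / N) (by positivity) hi'
      obtain ⟨h, hh, hhb⟩ := ih (Nat.le_of_succ_le hi) c hc hcx
      obtain ⟨h', hh', hhb', _⟩ := hext (c' * c⁻¹) (hc'.mul hc.inv) (by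
        intro x
        rw [mul_app]
        have h1 : c (c⁻¹ x) = x := app_inv c x
        set y := c⁻¹ x with hy
        have h2 : c' y - x = (b y - y) / N := by
          rw [← h1, hcx' y, hcx y]
          push_cast
          field_simp
          ring
        rw [h2, abs_div, abs_of_pos hN0]
        exact (div_le_div_of_nonneg_right (hbM y) hN0.le).trans hMN)
      refine ⟨h' * h, hh'.mul hh, fun t => ?_⟩
      rw [hmul_app, hhb t, hhb' (c t), mul_app, inv_app]
  refine key N le_rfl b hb (fun x => ?_)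
  rw [div_self hN0.ne']
  ring

end Pool.Agent.W_d1cfb0_h45
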