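import Pool.Agent.W_d1cfb0_h45.Circ
import Pool.Agent.W_d1cfb0_h45.BdFacts
import Pool.Agent.W_d1cfb0_h45.Inv
import Pool.Agent.W_d1cfb0_h45.LiftFix
import Pool.Agent.W_d1cfb0_h45.Lift
import Pool.Agent.W_d1cfb0_h45.Closure

/-!
# Assembly: a closed group of homeomorphisms of the square
-/

namespace Pool.Agent.W_d1cfb0_h45

open MeasureTheory

/-- The lifts all of whose area preserving extensions are in `H`. -/
def H1 (H : Set (Sq ≃ₜ Sq)) : Set (ℝ ≃o ℝ) :=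
  {b | Lf b ∧ ∀ h : Sq ≃ₜ Sq, PV h → (∀ t, h (bd t) = bd (b t)) → h ∈ H}

/-- Proof. `one`: an area preserving `h` with `h (bd t) = bd t` fixes the boundary, `hK`. `mul`: if
`h` lifts `b * b'` choose `h'` PV lifting `b'` (`exists_lift`); `h' ∈ H` and `h * h'⁻¹` lifts `b`, so it is
in `H`. `inv`: `h⁻¹` lifts `b`. `cl`: let `h` lift `b`, `ε > 0`; choose `δ` by `small_ext`, and `c ∈ H1` with
`|c⁻¹ (b x) - x| ≤ δ`; let `k` be the small extension of `c⁻¹ * b`; `h * k⁻¹` lifts `c`, so it is in `H`,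
and it is close to `h` (`h` is uniformly continuous), its inverse `k * h⁻¹` is close to `h⁻¹`. -/
theorem H1_cg {H : Set (Sq ≃ₜ Sq)} (h1 : 1 ∈ H) (h2 : ∀ a ∈ H, ∀ b ∈ H, a * b ∈ H)
    (h3 : ∀ a ∈ H, a⁻¹ ∈ H)
    (h4 : ∀ h : Sq ≃ₜ Sq, PV h → (∀ ε : ℝ, 0 < ε → ∃ g ∈ H, ∀ p, dist (g p) (h p) < ε ∧
      dist (g⁻¹ p) (h⁻¹ p) < ε) → h ∈ H)
    (hK : ∀ h : Sq ≃ₜ Sq, PV h → (∀ p, OnB p → h p = p) → h ∈ H) : CG Lf (H1 H) where
  one := by
    refine ⟨Lf.one, fun h hh ht => hK h hh fun p hp => ?_⟩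
    obtain ⟨t, rfl⟩ := (onB_iff p).mp hp
    exact ht t
  mul := by
    rintro a ⟨ha1, ha2⟩ b ⟨hb1, hb2⟩
    refine ⟨Lf.mul ha1 hb1, fun h hh ht => ?_⟩
    obtain ⟨k, hk, hkt⟩ := exists_lift hb1
    have e1 : h * k⁻¹ ∈ H := by
      refine ha2 _ (PV.mul hh (PV.inv hk)) fun t => ?_
      rw [hmul_app]
      have e2 : k⁻¹ (bd t) = bd (b⁻¹ t) := by
        have e3 := hkt (b⁻¹ t)
        rw [app_inv] at e3
        rw [← e3, hinv_app]
      rw [e2, ht, mul_app, app_inv]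
    have e4 : h = h * k⁻¹ * k := by group
    rw [e4]
    exact h2 _ e1 _ (hb2 k hk hkt)
  inv := by
    rintro a ⟨ha1, ha2⟩
    refine ⟨Lf.inv ha1, fun h hh ht => ?_⟩
    have e1 : h⁻¹ ∈ H := by
      refine ha2 _ (PV.inv hh) fun t => ?_
      have e2 := ht (a t)
      rw [inv_app] at e2
      rw [← e2, hinv_app]
    have e3 := h3 _ e1
    rwa [inv_inv] at e3
  cl := by
    intro b hb hb2
    refine ⟨hb, fun h hh ht => h4 h hh fun ε hε => ?_⟩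
    have uh : UniformContinuous h := CompactSpace.uniformContinuous_of_continuous h.continuous
    obtain ⟨δ0, hδ0, hu⟩ := Metric.uniformContinuous_iff.1 uh ε hε
    have hε' : 0 < min (δ0 / 2) (ε / 2) := lt_min (half_pos hδ0) (half_pos hε)
    obtain ⟨δ, hδ, hsm⟩ := small_ext _ hε'
    obtain ⟨c, hc, hcL, hcd⟩ := hb2 δ hδ
    obtain ⟨k, hk, hkt, hkd⟩ := hsm (c⁻¹ * b) (Lf.mul (Lf.inv hcL) hb) hcd
    refine ⟨h * k⁻¹, ?_, fun p => ⟨?_, ?_⟩⟩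
    · refine hc.2 _ (PV.mul hh (PV.inv hk)) fun t => ?_
      rw [hmul_app]
      have e2 : k⁻¹ (bd t) = bd (b⁻¹ (c t)) := by
        have e3 := hkt (b⁻¹ (c t))
        rw [mul_app, app_inv, inv_app] at e3
        rw [← e3, hinv_app]
      rw [e2, ht, app_inv]
    · rw [hmul_app]
      apply hu
      have e5 := hkd (k⁻¹ p)
      rw [happ_inv, dist_comm] at e5
      have e6 := e5.trans (min_le_left _ _)
      linarith
    · rw [mul_inv_rev, inv_inv, hmul_app]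
      have e5 := (hkd (h⁻¹ p)).trans (min_le_right _ _)
      linarith

/-- Proof. By `H1_cg` and the property of `G` all lifts are in `H1 H`: if `b ∈ G` has one area
preserving extension `g` in `H` then each area preserving extension `h` is in `H`
(`h = g * (g⁻¹ * h)`, and `g⁻¹ * h` fixes the boundary). Let `h` be PV. `h (bd 0) = bd s` (`onB_map`,
`onB_iff`); let `k` be an extension of `tr (-s)`, `k ∈ H`; `k * h` fixes `bd 0`. By `lift_fix` (with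
`onB_map`, `onB_iff`, `bd_eq_iff`) there is a lift `b` with `k * h` an extension of `b`, or
`r * (k * h)` an extension of `b`. -/
theorem all_mem {H : Set (Sq ≃ₜ Sq)} (h1 : 1 ∈ H) (h2 : ∀ a ∈ H, ∀ b ∈ H, a * b ∈ H)
    (h3 : ∀ a ∈ H, a⁻¹ ∈ H)
    (h4 : ∀ h : Sq ≃ₜ Sq, PV h → (∀ ε : ℝ, 0 < ε → ∃ g ∈ H, ∀ p, dist (g p) (h p) < ε ∧
      dist (g⁻¹ p) (h⁻¹ p) < ε) → h ∈ H)
    (hK : ∀ h : Sq ≃ₜ Sq, PV h → (∀ p, OnB p → h p = p) → h ∈ H)
    {G : Set (ℝ ≃o ℝ)} (hG1 : ∀ g ∈ G, Lf g) (hG2 : ∀ H', CG Lf H' → G ⊆ H' → ∀ b, Lf b → b ∈ H')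
    (hG3 : ∀ b ∈ G, ∃ g ∈ H, PV g ∧ ∀ t, g (bd t) = bd (b t))
    {r : Sq ≃ₜ Sq} (hr : PV r) (hr2 : ∀ t, r (bd t) = bd (-t)) (hrH : r ∈ H) :
    ∀ h : Sq ≃ₜ Sq, PV h → h ∈ H := by
  have hsub : G ⊆ H1 H := by
    intro b hb
    refine ⟨hG1 b hb, fun h hh ht => ?_⟩
    obtain ⟨g, hg, hgv, hgt⟩ := hG3 b hb
    have e1 : g⁻¹ * h ∈ H := by
      refine hK _ (PV.mul (PV.inv hgv) hh) fun p hp => ?_
      obtain ⟨t, rfl⟩ := (onB_iff p).mp hp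
      rw [hmul_app, ht, ← hgt, hinv_app]
    have e2 : h = g * (g⁻¹ * h) := by group
    rw [e2]
    exact h2 _ hg _ e1
  have hall : ∀ b, Lf b → b ∈ H1 H := hG2 (H1 H) (H1_cg h1 h2 h3 h4 hK) hsub
  have hon : ∀ (f : Sq ≃ₜ Sq) (t : ℝ), ∃ s, f (bd t) = bd s := by
    intro f t
    obtain ⟨s, hs⟩ := (onB_iff (f (bd t))).mp (onB_map f (bd t) ((onB_iff _).mpr ⟨t, rfl⟩))
    exact ⟨s, hs.symm⟩
  intro h hh
  obtain ⟨s, hs⟩ := hon h 0
  obtain ⟨k, hk, hkt⟩ := exists_lift (Lf.tr (-s))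
  have hkH : k ∈ H := (hall _ (Lf.tr (-s))).2 k hk hkt
  have h0 : (k * h) (bd 0) = bd 0 := by
    rw [hmul_app, hs, hkt, tr_apply, add_neg_cancel]
  obtain ⟨b, hb, hcase⟩ := lift_fix bd bd_cont bd_eq_iff (k * h) (fun t => hon _ t)
    (fun t => hon _ t) h0
  rcases hcase with hcase | hcase
  · have e1 : k * h ∈ H := (hall b hb).2 _ (PV.mul hk hh) hcase
    have e2 : h = k⁻¹ * (k * h) := by group
    rw [e2]
    exact h2 _ (h3 _ hkH) _ e1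
  · have e1 : r * (k * h) ∈ H := by
      refine (hall b hb).2 _ (PV.mul hr (PV.mul hk hh)) fun t => ?_
      rw [hmul_app, hcase, hr2, neg_neg]
    have e2 : h = k⁻¹ * (r⁻¹ * (r * (k * h))) := by group
    rw [e2]
    exact h2 _ (h3 _ hkH) _ (h2 _ (h3 _ hrH) _ e1)

end Pool.Agent.W_d1cfb0_h45
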