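import Pool.Agent.W_d1cfb0_h45.Defs

/-!
# A homeomorphism of `[0,1]` with the attracting fixed point `1/3`
-/

namespace Pool.Agent.W_d1cfb0_h45

/-- the maximum of two increasing homeomorphisms -/
noncomputable def Attract_sup (e f : ℝ ≃o ℝ) : ℝ ≃o ℝ where
  toFun x := max (e x) (f x)
  invFun y := min (e.symm y) (f.symm y)
  left_inv x := by
    rcases le_total (e x) (f x) with h | h
    · simp only [max_eq_right h, OrderIso.symm_apply_apply]
      refine min_eq_right ?_
      rw [← e.le_iff_le, OrderIso.apply_symm_apply]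
      exact h
    · simp only [max_eq_left h, OrderIso.symm_apply_apply]
      refine min_eq_left ?_
      rw [← f.le_iff_le, OrderIso.apply_symm_apply]
      exact h
  right_inv y := by
    rcases le_total (e.symm y) (f.symm y) with h | h
    · simp only [min_eq_left h, OrderIso.apply_symm_apply]
      refine max_eq_left ?_
      have := f.le_iff_le.2 h
      rwa [OrderIso.apply_symm_apply] at this
    · simp only [min_eq_right h, OrderIso.apply_symm_apply]
      refine max_eq_right ?_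
      have := e.le_iff_le.2 h
      rwa [OrderIso.apply_symm_apply] at this
  map_rel_iff' := by
    intro a b
    simp only [Equiv.coe_fn_mk]
    constructor
    · intro h
      by_contra hc
      rw [not_le] at hc
      have h1 : max (e b) (f b) < max (e a) (f a) :=
        max_lt_max (e.lt_iff_lt.2 hc) (f.lt_iff_lt.2 hc)
      exact absurd h (not_le.2 h1)
    · intro h
      exact max_le_max (e.le_iff_le.2 h) (f.le_iff_le.2 h)

/-- the minimum of two increasing homeomorphisms -/
noncomputable def Attract_inf (e f : ℝ ≃o ℝ) : ℝ ≃o ℝ where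
  toFun x := min (e x) (f x)
  invFun y := max (e.symm y) (f.symm y)
  left_inv x := by
    rcases le_total (e x) (f x) with h | h
    · simp only [min_eq_left h, OrderIso.symm_apply_apply]
      refine max_eq_left ?_
      rw [← f.le_iff_le, OrderIso.apply_symm_apply]
      exact h
    · simp only [min_eq_right h, OrderIso.symm_apply_apply]
      refine max_eq_right ?_
      rw [← e.le_iff_le, OrderIso.apply_symm_apply]
      exact h
  right_inv y := by
    rcases le_total (e.symm y) (f.symm y) with h | h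
    · simp only [max_eq_right h, OrderIso.apply_symm_apply]
      refine min_eq_right ?_
      have := e.le_iff_le.2 h
      rwa [OrderIso.apply_symm_apply] at this
    · simp only [max_eq_left h, OrderIso.apply_symm_apply]
      refine min_eq_left ?_
      have := f.le_iff_le.2 h
      rwa [OrderIso.apply_symm_apply] at this
  map_rel_iff' := by
    intro a b
    simp only [Equiv.coe_fn_mk]
    constructor
    · intro h
      by_contra hc
      rw [not_le] at hc
      have h1 : min (e b) (f b) < min (e a) (f a) :=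
        min_lt_min (e.lt_iff_lt.2 hc) (f.lt_iff_lt.2 hc)
      exact absurd h (not_le.2 h1)
    · intro h
      exact min_le_min (e.le_iff_le.2 h) (f.le_iff_le.2 h)

/-- `x ↦ 4 x - c` -/
noncomputable def Attract_four (c : ℝ) : ℝ ≃o ℝ where
  toFun x := 4 * x - c
  invFun x := (x + c) / 4
  left_inv x := by ring
  right_inv x := by ring
  map_rel_iff' := by
    intro a b
    simp only [Equiv.coe_fn_mk]
    constructor <;> intro h <;> linarith

/-- the map `v` -/
noncomputable def Attract_v : ℝ ≃o ℝ :=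
  Attract_sup 1 (Attract_inf (Attract_four 0) Aff) *
    Attract_inf 1 (Attract_sup (Attract_four 3) Aff)

theorem Attract_v_apply (x : ℝ) : Attract_v x =
    max (min x (max (4 * x - 3) ((1 + x) / 4)))
      (min (4 * (min x (max (4 * x - 3) ((1 + x) / 4))) - 0)
        ((1 + min x (max (4 * x - 3) ((1 + x) / 4))) / 4)) := rfl

theorem Attract_le {x : ℝ} (h : x ≤ 1 / 3) :
    Attract_v x = max x (min (4 * x) ((1 + x) / 4)) := by
  have h1 : min x (max (4 * x - 3) ((1 + x) / 4)) = x :=
    min_eq_left (le_max_of_le_right (by linarith))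
  rw [Attract_v_apply, h1, sub_zero]

theorem Attract_ge {x : ℝ} (h : 1 / 3 ≤ x) :
    Attract_v x = min x (max (4 * x - 3) ((1 + x) / 4)) := by
  rw [Attract_v_apply]
  have h1 : 1 / 3 ≤ min x (max (4 * x - 3) ((1 + x) / 4)) :=
    le_min h (le_max_of_le_right (by linarith))
  exact max_eq_left (min_le_of_right_le (by linarith))

theorem Attract_SO : SO 0 1 Attract_v := by
  intro x hx
  rcases hx with h | h
  · rw [Attract_le (by linarith)]
    exact max_eq_left (min_le_of_left_le (by linarith))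
  · rw [Attract_ge (by linarith)]
    exact min_eq_left (le_max_of_le_left (by linarith))

theorem Attract_left {a x : ℝ} (ha : 0 < a) (h1 : a ≤ x) (h2 : x ≤ 1 / 3) :
    x ≤ Attract_v x ∧ Attract_v x ≤ 1 / 3 ∧
      1 / 3 - Attract_v x ≤ max (1 / 4) (1 - 9 * a) * (1 / 3 - x) := by
  have e : Attract_v x = min (4 * x) ((1 + x) / 4) := by
    rw [Attract_le h2]
    exact max_eq_right (le_min (by linarith) (by linarith))
  rw [e]
  refine ⟨le_min (by linarith) (by linarith), min_le_of_right_le (by linarith), ?_⟩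
  rcases le_total (4 * x) ((1 + x) / 4) with h | h
  · rw [min_eq_left h]
    have h3 : (1 - 9 * a) * (1 / 3 - x) ≤ max (1 / 4) (1 - 9 * a) * (1 / 3 - x) :=
      mul_le_mul_of_nonneg_right (le_max_right _ _) (by linarith)
    nlinarith [mul_nonneg (sub_nonneg.2 h1) (sub_nonneg.2 h2), sq_nonneg x]
  · rw [min_eq_right h]
    have h3 : 1 / 4 * (1 / 3 - x) ≤ max (1 / 4) (1 - 9 * a) * (1 / 3 - x) :=
      mul_le_mul_of_nonneg_right (le_max_left _ _) (by linarith)
    linarith

theorem Attract_right {b x : ℝ} (hb : b < 1) (h1 : x ≤ b) (h2 : 1 / 3 ≤ x) :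
    Attract_v x ≤ x ∧ 1 / 3 ≤ Attract_v x ∧
      Attract_v x - 1 / 3 ≤ max (1 / 4) (1 - 9 / 2 * (1 - b)) * (x - 1 / 3) := by
  have e : Attract_v x = max (4 * x - 3) ((1 + x) / 4) := by
    rw [Attract_ge h2]
    exact min_eq_right (max_le (by linarith) (by linarith))
  rw [e]
  refine ⟨max_le (by linarith) (by linarith), le_max_of_le_right (by linarith), ?_⟩
  rcases le_total (4 * x - 3) ((1 + x) / 4) with h | h
  · rw [max_eq_right h]
    have h3 : 1 / 4 * (x - 1 / 3) ≤ max (1 / 4) (1 - 9 / 2 * (1 - b)) * (x - 1 / 3) :=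
      mul_le_mul_of_nonneg_right (le_max_left _ _) (by linarith)
    linarith
  · rw [max_eq_left h]
    have h3 : (1 - 9 / 2 * (1 - b)) * (x - 1 / 3) ≤
        max (1 / 4) (1 - 9 / 2 * (1 - b)) * (x - 1 / 3) :=
      mul_le_mul_of_nonneg_right (le_max_right _ _) (by linarith)
    have h4 : 0 ≤ (b - x) * (x - 1 / 3) := mul_nonneg (sub_nonneg.2 h1) (sub_nonneg.2 h2)
    have h5 : 0 ≤ (1 - x) * (1 - x) := mul_self_nonneg _
    nlinarith

theorem Attract_left_pow {a x : ℝ} (ha : 0 < a) (h1 : a ≤ x) (h2 : x ≤ 1 / 3) (m : ℕ) :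
    x ≤ (Attract_v ^ m) x ∧ (Attract_v ^ m) x ≤ 1 / 3 ∧
      1 / 3 - (Attract_v ^ m) x ≤ max (1 / 4) (1 - 9 * a) ^ m := by
  induction m with
  | zero =>
    rw [pow_zero, pow_zero]
    exact ⟨le_rfl, h2, by change 1 / 3 - x ≤ 1; linarith⟩
  | succ m ih =>
    obtain ⟨i1, i2, i3⟩ := ih
    obtain ⟨j1, j2, j3⟩ := Attract_left ha (h1.trans i1) i2
    rw [pow_succ', mul_app]
    refine ⟨i1.trans j1, j2, j3.trans ?_⟩
    rw [pow_succ']
    exact mul_le_mul_of_nonneg_left i3 (le_max_of_le_left (by norm_num))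

theorem Attract_right_pow {b x : ℝ} (hb : b < 1) (h1 : x ≤ b) (h2 : 1 / 3 ≤ x) (m : ℕ) :
    (Attract_v ^ m) x ≤ x ∧ 1 / 3 ≤ (Attract_v ^ m) x ∧
      (Attract_v ^ m) x - 1 / 3 ≤ max (1 / 4) (1 - 9 / 2 * (1 - b)) ^ m := by
  induction m with
  | zero =>
    rw [pow_zero, pow_zero]
    exact ⟨le_rfl, h2, by change x - 1 / 3 ≤ 1; linarith⟩
  | succ m ih =>
    obtain ⟨i1, i2, i3⟩ := ih
    obtain ⟨j1, j2, j3⟩ := Attract_right hb (i1.trans h1) i2
    rw [pow_succ', mul_app]
    refine ⟨j1.trans i1, j2, j3.trans ?_⟩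
    rw [pow_succ']
    exact mul_le_mul_of_nonneg_left i3 (le_max_of_le_left (by norm_num))

/-- Proof. `v = M1 * M2` with `M1 x = max x (min (4 * x) ((1 + x) / 4))`,
`M2 x = min x (max (4 * x - 3) ((1 + x) / 4))`. `M1` is the identity on `[1/3,∞)` and on `(-∞,0]`, `M2` is
the identity on `(-∞,1/3]` and on `[1,∞)`. For `0 < a ≤ x ≤ 1/3` one has
`0 ≤ 1/3 - v x ≤ q * (1/3 - x)` with `q = max (1/4) (1 - 9 a) < 1`, and similarly on `[1/3, b]`, `b < 1`:
`0 ≤ v x - 1/3 ≤ q' * (x - 1/3)`; iterate. -/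
theorem exists_v : ∃ v : ℝ ≃o ℝ, SO 0 1 v ∧ ∀ a b : ℝ, 0 < a → b < 1 → ∃ m : ℕ,
    ∀ x, a ≤ x → x ≤ b → 21 / 64 < (v ^ m) x ∧ (v ^ m) x < 22 / 64 := by
  refine ⟨Attract_v, Attract_SO, fun a b ha hb => ?_⟩
  obtain ⟨Q, hQ⟩ : ∃ Q, Q = max (max (1 / 4) (1 - 9 * a)) (max (1 / 4) (1 - 9 / 2 * (1 - b))) :=
    ⟨_, rfl⟩
  have hQ1 : Q < 1 := by
    rw [hQ]
    exact max_lt (max_lt (by norm_num) (by linarith)) (max_lt (by norm_num) (by linarith))
  have hQ0 : 0 ≤ Q := by
    rw [hQ]
    exact le_max_of_le_left (le_max_of_le_left (by norm_num))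
  obtain ⟨m, hm⟩ := exists_pow_lt_of_lt_one (show (0 : ℝ) < 1 / 192 by norm_num) hQ1
  refine ⟨m, fun x h1 h2 => ?_⟩
  rcases le_total x (1 / 3) with h | h
  · obtain ⟨i1, i2, i3⟩ := Attract_left_pow ha h1 h m
    have i4 : max (1 / 4) (1 - 9 * a) ^ m ≤ Q ^ m :=
      pow_le_pow_left₀ (le_max_of_le_left (by norm_num)) (by rw [hQ]; exact le_max_left _ _) m
    constructor <;> linarith
  · obtain ⟨i1, i2, i3⟩ := Attract_right_pow hb h2 h m
    have i4 : max (1 / 4) (1 - 9 / 2 * (1 - b)) ^ m ≤ Q ^ m :=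
      pow_le_pow_left₀ (le_max_of_le_left (by norm_num)) (by rw [hQ]; exact le_max_right _ _) m
    constructor <;> linarith

end Pool.Agent.W_d1cfb0_h45
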