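import Pool.Agent.W_d1cfb0_h45.Defs

/-!
# A homeomorphism fixing `0` agrees near `0` with one supported near `0`
-/

namespace Pool.Agent.W_d1cfb0_h45

/-- the width of the cut -/
noncomputable def Cut_t (x : ℝ) : ℝ := max 0 (1 / 8 - |x| / 2)

theorem Cut_t_nonneg (x : ℝ) : 0 ≤ Cut_t x := le_max_left _ _

theorem Cut_t_cont : Continuous Cut_t := by
  unfold Cut_t
  fun_prop

theorem Cut_t_zero {x : ℝ} (h : 1 / 4 ≤ |x|) : Cut_t x = 0 := by
  unfold Cut_t
  exact max_eq_left (by linarith)

theorem Cut_abs {x y : ℝ} (h : x < y) : |x| ≤ |y| + (y - x) ∧ |y| ≤ |x| + (y - x) := by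
  have h1 := abs_sub_abs_le_abs_sub x y
  have h2 := abs_sub_abs_le_abs_sub y x
  rw [abs_sub_comm x y] at h1
  rw [abs_of_pos (by linarith : (0 : ℝ) < y - x)] at h1 h2
  constructor <;> linarith

theorem Cut_U {x y : ℝ} (h : x < y) : x + Cut_t x < y + Cut_t y := by
  obtain ⟨h1, h2⟩ := Cut_abs h
  have h3 : Cut_t x < y - x + Cut_t y := by
    unfold Cut_t
    refine max_lt ?_ ?_
    · have := le_max_left (0 : ℝ) (1 / 8 - |y| / 2)
      linarith
    · have := le_max_right (0 : ℝ) (1 / 8 - |y| / 2)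
      linarith
  linarith

theorem Cut_L {x y : ℝ} (h : x < y) : x - Cut_t x < y - Cut_t y := by
  obtain ⟨h1, h2⟩ := Cut_abs h
  have h3 : Cut_t y < y - x + Cut_t x := by
    unfold Cut_t
    refine max_lt ?_ ?_
    · have := le_max_left (0 : ℝ) (1 / 8 - |x| / 2)
      linarith
    · have := le_max_right (0 : ℝ) (1 / 8 - |x| / 2)
      linarith
  linarith

/-- Proof. With `t x = max 0 (1/8 - |x|/2)` put `U x = x + t x`, `L x = x - t x` (strictly increasing,
continuous, `L 0 < 0 < U 0`, both are `x` for `|x| ≥ 1/4`) and `c x = min (max (b x) (L x)) (U x)`: strictly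
increasing, continuous, unbounded in both directions (as `L ≤ c ≤ U`), so an order isomorphism; near `0`, by
continuity, `L x < b x < U x`, so `c x = b x`. -/
theorem exists_cut (b : ℝ ≃o ℝ) (h0 : b 0 = 0) : ∃ (c : ℝ ≃o ℝ) (s : ℝ), 0 < s ∧ s < 1 / 4 ∧
    SO (-(1 / 4)) (1 / 4) c ∧ ∀ x, |x| ≤ s → c x = b x := by
  set c : ℝ → ℝ := fun x => min (max (b x) (x - Cut_t x)) (x + Cut_t x) with hc
  have hmono : StrictMono c := by
    intro x y hxy
    exact min_lt_min (max_lt_max (b.lt_iff_lt.2 hxy) (Cut_L hxy)) (Cut_U hxy)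
  have hcont : Continuous c :=
    (b.continuous.max (continuous_id.sub Cut_t_cont)).min (continuous_id.add Cut_t_cont)
  have hid : ∀ x, 1 / 4 ≤ |x| → c x = x := by
    intro x hx
    simp only [hc]
    rw [Cut_t_zero hx, sub_zero, add_zero]
    exact min_eq_right (le_max_right _ _)
  have htop : Filter.Tendsto c Filter.atTop Filter.atTop := by
    refine Filter.tendsto_id.congr' ?_
    filter_upwards [Filter.eventually_ge_atTop (1 / 4 : ℝ)] with x hx
    exact (hid x (hx.trans (le_abs_self x))).symm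
  have hbot : Filter.Tendsto c Filter.atBot Filter.atBot := by
    refine Filter.tendsto_id.congr' ?_
    filter_upwards [Filter.eventually_le_atBot (-(1 / 4) : ℝ)] with x hx
    exact (hid x ((by linarith : (1 : ℝ) / 4 ≤ -x).trans (neg_le_abs x))).symm
  have hsurj : Function.Surjective c := hcont.surjective htop hbot
  have hopen : IsOpen {x : ℝ | x - Cut_t x < b x ∧ b x < x + Cut_t x} :=
    (isOpen_lt (continuous_id.sub Cut_t_cont) b.continuous).inter
      (isOpen_lt b.continuous (continuous_id.add Cut_t_cont))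
  have hmem : (0 : ℝ) ∈ {x : ℝ | x - Cut_t x < b x ∧ b x < x + Cut_t x} := by
    have h1 : Cut_t 0 = 1 / 8 := by
      unfold Cut_t
      norm_num
    constructor
    · rw [h1, h0]
      norm_num
    · rw [h1, h0]
      norm_num
  obtain ⟨ε, hε, hball⟩ := Metric.isOpen_iff.1 hopen 0 hmem
  refine ⟨hmono.orderIsoOfSurjective c hsurj, min (ε / 2) (1 / 8), by positivity,
    (min_le_right _ _).trans_lt (by norm_num), ?_, ?_⟩
  · intro x hx
    refine hid x ?_
    rcases hx with hx | hx
    · exact (by linarith : (1 : ℝ) / 4 ≤ -x).trans (neg_le_abs x)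
    · exact hx.trans (le_abs_self x)
  · intro x hx
    have h1 : x ∈ Metric.ball (0 : ℝ) ε := by
      rw [Metric.mem_ball, dist_zero_right, Real.norm_eq_abs]
      have := hx.trans (min_le_left _ _)
      linarith
    obtain ⟨h2, h3⟩ := hball h1
    change c x = b x
    simp only [hc]
    rw [max_eq_left h2.le, min_eq_left h3.le]

end Pool.Agent.W_d1cfb0_h45
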