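import Pool.Agent.W_d1cfb0_h45.Defs

/-!
# Translations
-/

namespace Pool.Agent.W_d1cfb0_h45

/-- A closed group of lifts which contains the translations by `1` and by an irrational number
contains all translations.

Proof. The set of `c` with `tr c ∈ H` is a subgroup of `ℝ` (`tr (c + d) = tr c * tr d`,
`tr (-c) = (tr c)⁻¹`), it contains `1` and `α`, so it is dense
(`AddSubgroup.dense_of_not_isolated_zero`, or `AddSubgroup.dense_or_cyclic`: it is not cyclic as `α`
is irrational); for arbitrary `c` and `ε` choose
`c'` in it with `|c' - c| ≤ ε`; `(tr c')⁻¹ (tr c x) - x = c - c'`; use `CG.cl`. -/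
theorem tr_mem {H : Set (ℝ ≃o ℝ)} (hH : CG Lf H) {α : ℝ} (hα : Irrational α)
    (h1 : tr 1 ∈ H) (h2 : tr α ∈ H) (c : ℝ) : tr c ∈ H := by
  have hz : tr 0 = 1 := by
    ext x
    simp
  have hadd : ∀ c d : ℝ, tr (c + d) = tr c * tr d := by
    intro c d
    ext x
    rw [mul_app]
    simp only [tr_apply]
    ring
  have hneg : ∀ c : ℝ, tr (-c) = (tr c)⁻¹ := by
    intro c
    ext x
    apply (tr c).injective
    rw [app_inv]
    simp only [tr_apply]
    ring
  let S : AddSubgroup ℝ :=
    { carrier := {c | tr c ∈ H}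
      add_mem' := by
        intro a b ha hb
        show tr (a + b) ∈ H
        rw [hadd]
        exact hH.mul _ ha _ hb
      zero_mem' := by
        show tr 0 ∈ H
        rw [hz]
        exact hH.one
      neg_mem' := by
        intro a ha
        show tr (-a) ∈ H
        rw [hneg]
        exact hH.inv _ ha }
  have hS : Dense (S : Set ℝ) := by
    have h := dense_addSubgroupClosure_pair_iff (a := α) (b := 1)
    rw [div_one] at h
    refine (h.2 hα).mono ?_
    rw [SetLike.coe_subset_coe, AddSubgroup.closure_le]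
    intro y hy
    rcases hy with hy | hy
    · rw [hy]
      exact h2
    · rw [Set.mem_singleton_iff.1 hy]
      exact h1
  refine hH.cl _ (Lf.tr c) fun ε hε => ?_
  obtain ⟨c', hc', hd⟩ := Metric.dense_iff.1 hS c ε hε
  refine ⟨tr c', hd, Lf.tr c', fun x => ?_⟩
  rw [← hneg]
  simp only [tr_apply]
  rw [Metric.mem_ball, Real.dist_eq] at hc'
  have : x + c + -c' - x = -(c' - c) := by ring
  rw [this, abs_neg]
  exact hc'.le

end Pool.Agent.W_d1cfb0_h45
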