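import Pool.Agent.W_d1cfb0_h45.DenseInt
import Pool.Agent.W_d1cfb0_h45.Per
import Pool.Agent.W_d1cfb0_h45.Trans
import Pool.Agent.W_d1cfb0_h45.Cut

/-!
# Finitely many homeomorphisms of the circle
-/

namespace Pool.Agent.W_d1cfb0_h45

/-- Finitely many lifts of circle homeomorphisms such that each closed group of lifts containing
them contains all lifts.

Proof. `G = per '' G0 ∪ {tr 1, tr √2}` with `G0` from `dense_interval`. Let `H` be given. The set
`{g | SO 0 1 g ∧ per g ∈ H}` satisfies `CG (SO 0 1)` and contains `G0`, so `per g ∈ H` for all `g`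
supported in `(a, c)` with `0 < a < c < 1`; `tr c ∈ H` for all `c` (`tr_mem`).
Let `Lf b`. Replace `b` by `tr (-(b 0)) * b`: so `b 0 = 0`. Let `c`, `s` be as in `exists_cut`. Then
`c' = tr (1/2) * c * (tr (1/2))⁻¹` is supported in `(1/4, 3/4)`, so
`d = (tr (1/2))⁻¹ * per c' * tr (1/2) ∈ H`, and `d x = c x = b x` for `|x| ≤ s`
(as `x + 1/2 ∈ [0,1]`). `d⁻¹ * b` is a lift which is the identity on `[-s, s]`, so also on
`[1 - s, 1]` (periodicity), so it is `per g` with `g` supported in `(s, 1 - s)` (last part of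
`exists_per`), hence in `H`. -/
theorem circle_dense : ∃ G : Set (ℝ ≃o ℝ), G.Finite ∧ (∀ g ∈ G, Lf g) ∧
    ∀ H, CG Lf H → G ⊆ H → ∀ b, Lf b → b ∈ H := by
  obtain ⟨G0, hfin, hsup, hdense⟩ := dense_interval
  obtain ⟨per, hperL, hperE, hper1, hpermul, hperinv, hpercl, hperEx⟩ := exists_per
  refine ⟨per '' G0 ∪ {tr 1, tr (Real.sqrt 2)}, (hfin.image per).union (Set.toFinite _), ?_, ?_⟩
  · intro g hg
    rcases hg with ⟨g0, hg0, rfl⟩ | hg
    · exact hperL g0 (hsup g0 hg0)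
    · rcases hg with hg | hg
      · rw [hg]
        exact Lf.tr 1
      · rw [Set.mem_singleton_iff.1 hg]
        exact Lf.tr _
  intro H hH hGH
  have hCG : CG (SO 0 1) {g | SO 0 1 g ∧ per g ∈ H} :=
    { one := ⟨SO.one 0 1, by rw [hper1]; exact hH.one⟩
      mul := fun a ha b hb => ⟨SO.mul ha.1 hb.1, by
        rw [hpermul a b ha.1 hb.1]; exact hH.mul _ ha.2 _ hb.2⟩
      inv := fun a ha => ⟨SO.inv ha.1, by rw [hperinv a ha.1]; exact hH.inv _ ha.2⟩
      cl := fun b hb h => ⟨hb, by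
        refine hH.cl (per b) (hperL b hb) (fun ε hε => ?_)
        obtain ⟨c, hc, hc1, hc2⟩ := h ε hε
        exact ⟨per c, hc.2, hperL c hc1, hpercl b c hb hc1 ε hc2⟩⟩ }
  have hsub : G0 ⊆ {g | SO 0 1 g ∧ per g ∈ H} := fun g hg =>
    ⟨hsup g hg, hGH (Or.inl ⟨g, hg, rfl⟩)⟩
  have hInt : ∀ (g : ℝ ≃o ℝ) (a c : ℝ), 0 < a → a < c → c < 1 → SO a c g → per g ∈ H :=
    fun g a c h1 h2 h3 h4 => (hdense _ hCG hsub g a c h1 h2 h3 h4).2
  have htr : ∀ c, tr c ∈ H := fun c => tr_mem hH irrational_sqrt_two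
    (hGH (Or.inr (Or.inl rfl))) (hGH (Or.inr (Or.inr rfl))) c
  have htinv : ∀ c x : ℝ, (tr c)⁻¹ x = x - c := by
    intro c x
    apply (tr c).injective
    rw [app_inv]
    simp only [tr_apply]
    ring
  have hmain : ∀ b, Lf b → b 0 = 0 → b ∈ H := by
    intro b hb h0
    obtain ⟨c, s, hs0, hs4, hcS, hcb⟩ := exists_cut b h0
    have hc' : SO (1 / 4) (3 / 4) (tr (1 / 2) * c * (tr (1 / 2))⁻¹) := by
      have h := SO.conj hcS (tr (1 / 2))
      simp only [tr_apply] at h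
      have e1 : -(1 / 4) + 1 / 2 = (1 / 4 : ℝ) := by norm_num
      have e2 : 1 / 4 + 1 / 2 = (3 / 4 : ℝ) := by norm_num
      rwa [e1, e2] at h
    have hc01 : SO 0 1 (tr (1 / 2) * c * (tr (1 / 2))⁻¹) :=
      SO.mono hc' (by norm_num) (by norm_num)
    set c' := tr (1 / 2) * c * (tr (1 / 2))⁻¹ with hc'def
    have hpc : per c' ∈ H := hInt c' (1 / 4) (3 / 4) (by norm_num) (by norm_num) (by norm_num) hc'
    set d := (tr (1 / 2))⁻¹ * per c' * tr (1 / 2) with hd
    have hdH : d ∈ H := hH.mul _ (hH.mul _ (hH.inv _ (htr _)) _ hpc) _ (htr _)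
    have hdL : Lf d := Lf.mul (Lf.mul (Lf.inv (Lf.tr _)) (hperL c' hc01)) (Lf.tr _)
    have hdb : ∀ x, |x| ≤ s → d x = b x := by
      intro x hx
      have hx' := abs_le.1 hx
      have h1 : per c' (x + 1 / 2) = c' (x + 1 / 2) :=
        hperE c' hc01 (x + 1 / 2) (by linarith) (by linarith)
      have h2 : c' (x + 1 / 2) = c x + 1 / 2 := by
        rw [hc'def, mul_app, mul_app, htinv]
        simp only [tr_apply, add_sub_cancel_right]
      rw [hd, mul_app, mul_app, tr_apply, h1, h2, htinv, add_sub_cancel_right]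
      exact hcb x hx
    have heL : Lf (d⁻¹ * b) := Lf.mul (Lf.inv hdL) hb
    have hex : ∀ x, |x| ≤ s → (d⁻¹ * b) x = x := by
      intro x hx
      rw [mul_app, ← hdb x hx, inv_app]
    obtain ⟨g, hg, hge⟩ := hperEx (d⁻¹ * b) heL (hex 0 (by simpa using hs0.le)) s (1 - s) hs0
      (by linarith) (by linarith)
      (fun x h1 h2 => hex x (abs_le.2 ⟨by linarith, h2⟩))
      (fun x h1 h2 => by
        have h3 := heL (x - 1)
        rw [sub_add_cancel, hex (x - 1) (abs_le.2 ⟨by linarith, by linarith⟩)] at h3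
        rw [h3]
        ring)
    have heH : d⁻¹ * b ∈ H := by
      rw [← hge]
      exact hInt g s (1 - s) hs0 (by linarith) (by linarith) hg
    have : b = d * (d⁻¹ * b) := by group
    rw [this]
    exact hH.mul _ hdH _ heH
  intro b hb
  have h1 : tr (-(b 0)) * b ∈ H := by
    refine hmain _ (Lf.mul (Lf.tr _) hb) ?_
    rw [mul_app, tr_apply]
    ring
  have h2 : b = (tr (-(b 0)))⁻¹ * (tr (-(b 0)) * b) := by group
  rw [h2]
  exact hH.mul _ (hH.inv _ (htr _)) _ h1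

end Pool.Agent.W_d1cfb0_h45
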