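import Pool.Agent.W_d1cfb0_h45.Defs

/-!
# Storage of a sequence of homeomorphisms of the block `[1/4, 1/2]` in one homeomorphism
-/

namespace Pool.Agent.W_d1cfb0_h45

theorem Store_uniq {x : ℝ} {k l : ℕ} (h1 : 1 / 4 < 2 ^ k * x) (h2 : 2 ^ k * x ≤ 1 / 2)
    (h3 : 1 / 4 < 2 ^ l * x) (h4 : 2 ^ l * x ≤ 1 / 2) : k = l := by
  have key : ∀ {k l : ℕ}, 1 / 4 < 2 ^ k * x → 2 ^ l * x ≤ 1 / 2 → ¬ k < l := by
    intro k l h1 h4 hkl
    have hx : 0 < x := by
      by_contra hx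
      push Not at hx
      have : (2 : ℝ) ^ k * x ≤ 0 := mul_nonpos_of_nonneg_of_nonpos (by positivity) hx
      linarith
    have h5 : (2 : ℝ) ^ (k + 1) ≤ 2 ^ l := pow_le_pow_right₀ (by norm_num) hkl
    rw [pow_succ] at h5
    have h6 : (2 : ℝ) ^ k * 2 * x ≤ 2 ^ l * x := mul_le_mul_of_nonneg_right h5 hx.le
    linarith
  have h5 := key h1 h4
  have h6 := key h3 h2
  omega

open Classical in
/-- the stored map -/
noncomputable def Store_fun (f : ℕ → ℝ ≃o ℝ) (x : ℝ) : ℝ :=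
  if h : ∃ k : ℕ, 1 / 4 < 2 ^ k * x ∧ 2 ^ k * x ≤ 1 / 2 then
    f h.choose (2 ^ h.choose * x) / 2 ^ h.choose else x

theorem Store_eq (f : ℕ → ℝ ≃o ℝ) {x : ℝ} {k : ℕ} (h1 : 1 / 4 < 2 ^ k * x)
    (h2 : 2 ^ k * x ≤ 1 / 2) : Store_fun f x = f k (2 ^ k * x) / 2 ^ k := by
  have h : ∃ k : ℕ, 1 / 4 < 2 ^ k * x ∧ 2 ^ k * x ≤ 1 / 2 := ⟨k, h1, h2⟩
  unfold Store_fun
  rw [dif_pos h]
  have h3 := h.choose_spec
  have h4 : h.choose = k := Store_uniq h3.1 h3.2 h1 h2
  rw [h4]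

theorem Store_out (f : ℕ → ℝ ≃o ℝ) {x : ℝ} (hx : x ≤ 0 ∨ 1 / 2 < x) : Store_fun f x = x := by
  unfold Store_fun
  rw [dif_neg]
  rintro ⟨k, h1, h2⟩
  rcases hx with hx | hx
  · have : (2 : ℝ) ^ k * x ≤ 0 := mul_nonpos_of_nonneg_of_nonpos (by positivity) hx
    linarith
  · have h3 : (1 : ℝ) ≤ 2 ^ k := one_le_pow₀ (by norm_num)
    nlinarith

theorem Store_cases (x : ℝ) :
    (x ≤ 0 ∨ 1 / 2 < x) ∨ ∃ k : ℕ, 1 / 4 < 2 ^ k * x ∧ 2 ^ k * x ≤ 1 / 2 := by
  classical
  by_cases h0 : x ≤ 0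
  · exact Or.inl (Or.inl h0)
  by_cases h1 : 1 / 2 < x
  · exact Or.inl (Or.inr h1)
  right
  push Not at h0 h1
  have hex : ∃ k : ℕ, 1 / 4 < 2 ^ k * x := by
    obtain ⟨k, hk⟩ := pow_unbounded_of_one_lt (1 / x) (one_lt_two : (1 : ℝ) < 2)
    refine ⟨k, ?_⟩
    have h2 : 1 / x * x = 1 := by field_simp
    have h3 : 1 / x * x < 2 ^ k * x := mul_lt_mul_of_pos_right hk h0
    linarith
  refine ⟨Nat.find hex, Nat.find_spec hex, ?_⟩
  rcases Nat.eq_zero_or_pos (Nat.find hex) with h2 | h2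
  · rw [h2]
    simpa using h1
  · have h3 := Nat.find_min hex (m := Nat.find hex - 1) (by omega)
    push Not at h3
    have h4 : (2 : ℝ) ^ (Nat.find hex) = 2 ^ (Nat.find hex - 1) * 2 := by
      rw [← pow_succ]
      congr 1
      omega
    rw [h4]
    linarith

theorem Store_pos {x : ℝ} {k : ℕ} (h1 : 1 / 4 < 2 ^ k * x) : 0 < x := by
  by_contra hx
  push Not at hx
  have : (2 : ℝ) ^ k * x ≤ 0 := mul_nonpos_of_nonneg_of_nonpos (by positivity) hx
  linarith

theorem Store_block {g : ℝ ≃o ℝ} (hg : SO (1 / 4) (1 / 2) g) {y : ℝ} (h1 : 1 / 4 < y)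
    (h2 : y ≤ 1 / 2) : 1 / 4 < g y ∧ g y ≤ 1 / 2 := by
  refine ⟨?_, (hg.maps' h1.le h2).2⟩
  have := g.lt_iff_lt.2 h1
  rwa [hg (1 / 4) (Or.inl le_rfl)] at this

theorem Store_inv {f g : ℕ → ℝ ≃o ℝ} (hf : ∀ k, SO (1 / 4) (1 / 2) (f k))
    (hfg : ∀ k x, g k (f k x) = x) (x : ℝ) : Store_fun g (Store_fun f x) = x := by
  rcases Store_cases x with hx | ⟨k, h1, h2⟩
  · rw [Store_out f hx, Store_out g hx]
  · rw [Store_eq f h1 h2]
    obtain ⟨h3, h4⟩ := Store_block (hf k) h1 h2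
    have h5 : (2 : ℝ) ^ k * (f k (2 ^ k * x) / 2 ^ k) = f k (2 ^ k * x) := by
      field_simp
    rw [Store_eq g (k := k) (by rw [h5]; exact h3) (by rw [h5]; exact h4), h5, hfg]
    field_simp

theorem Store_mono {f : ℕ → ℝ ≃o ℝ} (hf : ∀ k, SO (1 / 4) (1 / 2) (f k)) :
    StrictMono (Store_fun f) := by
  intro x y hxy
  rcases Store_cases x with hx | ⟨k, h1, h2⟩
  · rcases Store_cases y with hy | ⟨l, h3, h4⟩
    · rw [Store_out f hx, Store_out f hy]
      exact hxy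
    · have hy0 := Store_pos h3
      have hy1 : y ≤ 1 / 2 := by
        have h5 : (1 : ℝ) ≤ 2 ^ l := one_le_pow₀ (by norm_num)
        nlinarith
      rcases hx with hx | hx
      · rw [Store_out f (Or.inl hx), Store_eq f h3 h4]
        obtain ⟨h6, h7⟩ := Store_block (hf l) h3 h4
        have : 0 < f l (2 ^ l * y) / 2 ^ l := by
          apply div_pos (by linarith) (by positivity)
        linarith
      · linarith
  · obtain ⟨h6, h7⟩ := Store_block (hf k) h1 h2
    have hx0 := Store_pos h1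
    rw [Store_eq f h1 h2]
    have h8 : f k (2 ^ k * x) / 2 ^ k ≤ (1 / 2) / 2 ^ k := by
      gcongr
    have h9 : (1 / 2 : ℝ) / 2 ^ k ≤ 1 / 2 := by
      apply div_le_self (by norm_num)
      exact one_le_pow₀ (by norm_num)
    rcases Store_cases y with hy | ⟨l, h3, h4⟩
    · rw [Store_out f hy]
      rcases hy with hy | hy <;> linarith
    · rw [Store_eq f h3 h4]
      obtain ⟨h10, h11⟩ := Store_block (hf l) h3 h4
      have hlk : l ≤ k := by
        by_contra hlk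
        push Not at hlk
        have h12 : (2 : ℝ) ^ (k + 1) ≤ 2 ^ l := pow_le_pow_right₀ (by norm_num) hlk
        rw [pow_succ] at h12
        have h13 : (2 : ℝ) ^ k * x < 2 ^ k * y := mul_lt_mul_of_pos_left hxy (by positivity)
        have h14 : (2 : ℝ) ^ k * 2 * y ≤ 2 ^ l * y :=
          mul_le_mul_of_nonneg_right h12 (hx0.trans hxy).le
        linarith
      rcases hlk.lt_or_eq with hlk | hlk
      · have h12 : (2 : ℝ) ^ (l + 1) ≤ 2 ^ k := pow_le_pow_right₀ (by norm_num) hlk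
        have h13 : (1 / 2 : ℝ) / 2 ^ k ≤ (1 / 4) / 2 ^ l := by
          rw [div_le_div_iff₀ (by positivity) (by positivity)]
          rw [pow_succ] at h12
          linarith
        have h14 : (1 / 4) / 2 ^ l < f l (2 ^ l * y) / 2 ^ l := by
          gcongr
        linarith
      · subst hlk
        have h12 : (2 : ℝ) ^ l * x < 2 ^ l * y := mul_lt_mul_of_pos_left hxy (by positivity)
        have h13 := (f l).lt_iff_lt.2 h12
        gcongr

/-- A sequence of homeomorphisms `f k` supported in `(1/4, 1/2)` is stored in one homeomorphism `Φ`: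
on the block `[1/4, 1/2] / 2^k` it is the scaled copy of `f k`.

Proof. For `0 < x ≤ 1/2` let `k` be the least `k` with `1/4 < 2^k * x` (`Nat.find`), so that
`1/4 < 2^k * x ≤ 1/2`; put `φ x = f k (2^k * x) / 2^k`, and `φ x = x` for the other `x`.
`φ` maps the block `(1/4,1/2] / 2^k` onto itself (`SO.maps'`, and `f k (1/2) = 1/2`), is strictly
increasing on it, the blocks are ordered, so `φ` is strictly increasing; the same construction with
`(f k)⁻¹` is the inverse (or: surjective, and `StrictMono.orderIsoOfSurjective`). At the left end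
`x = 1/4` of a block use that `(1/4)/2^k = (1/2)/2^(k+1)` is fixed by everything. -/
theorem exists_store (f : ℕ → ℝ ≃o ℝ) (hf : ∀ k, SO (1 / 4) (1 / 2) (f k)) :
    ∃ Φ : ℝ ≃o ℝ, SO 0 (1 / 2) Φ ∧
      ∀ (k : ℕ) (x : ℝ), 1 / 4 ≤ x → x ≤ 1 / 2 → Φ (x / 2 ^ k) = f k x / 2 ^ k := by
  refine ⟨StrictMono.orderIsoOfRightInverse (Store_fun f) (Store_mono hf)
    (Store_fun fun k => (f k)⁻¹) ?_, ?_, ?_⟩
  · exact Store_inv (fun k => (hf k).inv) fun k x => app_inv (f k) x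
  · intro x hx
    change Store_fun f x = x
    rcases hx with hx | hx
    · exact Store_out f (Or.inl hx)
    · rcases hx.lt_or_eq with hx | hx
      · exact Store_out f (Or.inr hx)
      · rw [← hx, Store_eq f (k := 0) (by norm_num) (by norm_num)]
        have h1 := hf 0 (1 / 2) (Or.inr le_rfl)
        simp only [pow_zero, one_mul, div_one]
        exact h1
  · intro k x h1 h2
    change Store_fun f (x / 2 ^ k) = f k x / 2 ^ k
    rcases h1.lt_or_eq with h1 | h1
    · have h3 : (2 : ℝ) ^ k * (x / 2 ^ k) = x := by field_simp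
      rw [Store_eq f (k := k) (by rw [h3]; exact h1) (by rw [h3]; exact h2), h3]
    · have h3 : (2 : ℝ) ^ (k + 1) * (x / 2 ^ k) = 1 / 2 := by
        rw [← h1, pow_succ]
        field_simp
        norm_num
      rw [Store_eq f (k := k + 1) (by rw [h3]; norm_num) (by rw [h3]), h3, ← h1,
        hf (k + 1) (1 / 2) (Or.inr le_rfl), hf k (1 / 4) (Or.inl le_rfl), pow_succ]
      field_simp
      norm_num

end Pool.Agent.W_d1cfb0_h45
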