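import Pool.Agent.W_d1cfb0_h45.W

/-!
# How the storage is used
-/

namespace Pool.Agent.W_d1cfb0_h45

theorem StoreUse_pow {w : ℝ ≃o ℝ} (hw : ∀ x, 0 ≤ x → x ≤ 1 / 2 → w x = x / 2) (k : ℕ) (x : ℝ)
    (h0 : 0 ≤ x) (h1 : x ≤ 1 / 2) : (w ^ k) x = x / 2 ^ k := by
  induction k with
  | zero =>
    rw [pow_zero, pow_zero, div_one]
    rfl
  | succ k ih =>
    have h2 : (1 : ℝ) ≤ 2 ^ k := one_le_pow₀ (by norm_num)
    have h3 : x / 2 ^ k ≤ x := div_le_self h0 h2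
    rw [pow_succ', mul_app, ih, hw _ (by positivity) (h3.trans h1), pow_succ, div_div]

theorem StoreUse_exists {y : ℝ} (h0 : 0 < y) (h1 : y ≤ 1 / 2) :
    ∃ (k : ℕ) (z : ℝ), 1 / 4 ≤ z ∧ z ≤ 1 / 2 ∧ y = z / 2 ^ k := by
  obtain ⟨k, hk1, hk2⟩ := exists_nat_pow_near (x := 1 / (2 * y)) (y := (2 : ℝ))
    (by rw [le_div_iff₀ (by positivity)]; linarith) (by norm_num)
  rw [le_div_iff₀ (by positivity)] at hk1
  rw [div_lt_iff₀ (by positivity), pow_succ] at hk2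
  refine ⟨k, y * 2 ^ k, by linarith, by linarith, ?_⟩
  rw [mul_div_assoc, div_self (by positivity), mul_one]

/-- The stored homeomorphism `f k` is recovered on the block `[1/4, 1/2]` by conjugation with
`w^k`. -/
theorem store_recover {w Φ : ℝ ≃o ℝ} {f : ℕ → ℝ ≃o ℝ}
    (hw : ∀ x, 0 ≤ x → x ≤ 1 / 2 → w x = x / 2)
    (hf : ∀ k, SO (1 / 4) (1 / 2) (f k))
    (hΦ : ∀ (k : ℕ) (x : ℝ), 1 / 4 ≤ x → x ≤ 1 / 2 → Φ (x / 2 ^ k) = f k x / 2 ^ k)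
    (k : ℕ) (x : ℝ) (h0 : 1 / 4 ≤ x) (h1 : x ≤ 1 / 2) :
    ((w ^ k)⁻¹ * Φ * w ^ k) x = f k x := by
  have hk := hf k
  obtain ⟨h2, h3⟩ := hk.maps' h0 h1
  have h4 : (w ^ k) (f k x) = f k x / 2 ^ k :=
    StoreUse_pow hw k _ (by linarith) h3
  rw [mul_app, mul_app, StoreUse_pow hw k x (by linarith) h1, hΦ k x h0 h1, ← h4, inv_app]

/-- Hence conjugation of `e` (supported in the block) by `w^-k Φ w^k` and by `f k` is the same.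

Proof. Put `ψ = (w ^ k)⁻¹ * Φ * w ^ k`; it maps `[1/4,1/2]` onto itself, as `f k` there
(`store_recover`), so also `ψ⁻¹ = (f k)⁻¹` on `[1/4,1/2]`. For `x` in the block both sides are
`f k (e ((f k)⁻¹ x))`; for `x` outside, `ψ⁻¹ x` is outside (if `ψ⁻¹ x` were in the block then
`x = ψ (ψ⁻¹ x)` would be in the block), so both sides are `x`. -/
theorem store_conj {w Φ : ℝ ≃o ℝ} {f : ℕ → ℝ ≃o ℝ}
    (hw : ∀ x, 0 ≤ x → x ≤ 1 / 2 → w x = x / 2)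
    (hf : ∀ k, SO (1 / 4) (1 / 2) (f k))
    (hΦ : ∀ (k : ℕ) (x : ℝ), 1 / 4 ≤ x → x ≤ 1 / 2 → Φ (x / 2 ^ k) = f k x / 2 ^ k)
    {e : ℝ ≃o ℝ} (he : SO (1 / 4) (1 / 2) e) (k : ℕ) :
    ((w ^ k)⁻¹ * Φ * w ^ k) * e * ((w ^ k)⁻¹ * Φ * w ^ k)⁻¹ = f k * e * (f k)⁻¹ := by
  have hk := hf k
  obtain ⟨ψ, hψ⟩ : ∃ ψ : ℝ ≃o ℝ, ψ = (w ^ k)⁻¹ * Φ * w ^ k := ⟨_, rfl⟩
  have hr : ∀ x : ℝ, 1 / 4 ≤ x → x ≤ 1 / 2 → ψ x = f k x := by
    intro x h0 h1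
    rw [hψ]
    exact store_recover hw hf hΦ k x h0 h1
  rw [← hψ]
  have hri : ∀ x : ℝ, 1 / 4 ≤ x → x ≤ 1 / 2 → ψ⁻¹ x = (f k)⁻¹ x := by
    intro x h0 h1
    obtain ⟨h2, h3⟩ := hk.inv.maps' h0 h1
    have h4 := hr _ h2 h3
    rw [app_inv] at h4
    rw [← h4, inv_app, h4]
  refine RelIso.ext fun x => ?_
  rw [mul_app, mul_app, mul_app, mul_app]
  by_cases hx : 1 / 4 ≤ x ∧ x ≤ 1 / 2
  · obtain ⟨h0, h1⟩ := hx
    rw [hri x h0 h1]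
    obtain ⟨h2, h3⟩ := hk.inv.maps' h0 h1
    obtain ⟨h4, h5⟩ := he.maps' h2 h3
    exact hr _ h4 h5
  · have hx' : x ≤ 1 / 4 ∨ 1 / 2 ≤ x := by
      by_contra hcon
      push Not at hcon
      exact hx ⟨hcon.1.le, hcon.2.le⟩
    have h1 : ¬ (1 / 4 ≤ ψ⁻¹ x ∧ ψ⁻¹ x ≤ 1 / 2) := by
      rintro ⟨h2, h3⟩
      have h4 := hr _ h2 h3
      rw [app_inv] at h4
      obtain ⟨h5, h6⟩ := hk.maps' h2 h3
      rw [← h4] at h5 h6
      exact hx ⟨h5, h6⟩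
    have h2 : ψ⁻¹ x ≤ 1 / 4 ∨ 1 / 2 ≤ ψ⁻¹ x := by
      by_contra hcon
      push Not at hcon
      exact h1 ⟨hcon.1.le, hcon.2.le⟩
    rw [he _ h2, app_inv, hk.inv x hx', he x hx', hk x hx']

/-- For a constant sequence `f k = g` the element `g` is the commutator of `Φ` and `w`.

Proof. Let `x ≤ 1/4` be positive: `w⁻¹ x = 2 x`, and `2 x = z / 2^k` with `1/4 ≤ z ≤ 1/2`, so
`Φ⁻¹ (2 x) = g⁻¹ z / 2^k`, `w` of it is `g⁻¹ z / 2^(k+1) = Φ⁻¹ x`, and `Φ` gives back `x = g x`.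
For `x ≥ 1/4`: `w⁻¹ x ≥ 1/2`, so `Φ⁻¹` fixes it and the product is `Φ x`, which is `g x` on
`[1/4,1/2]` (`k = 0`) and `x = g x` for `x ≥ 1/2`. For `x ≤ 0` everything is fixed. -/
theorem store_comm {w Φ g : ℝ ≃o ℝ} (hw1 : SO 0 1 w)
    (hw : ∀ x, 0 ≤ x → x ≤ 1 / 2 → w x = x / 2)
    (hg : SO (1 / 4) (1 / 2) g) (hΦ1 : SO 0 (1 / 2) Φ)
    (hΦ : ∀ (k : ℕ) (x : ℝ), 1 / 4 ≤ x → x ≤ 1 / 2 → Φ (x / 2 ^ k) = g x / 2 ^ k) :
    Φ * w * Φ⁻¹ * w⁻¹ = g := by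
  refine RelIso.ext fun x => ?_
  rw [mul_app, mul_app, mul_app]
  rcases le_or_gt x 0 with hx | hx
  · rw [hw1.inv x (Or.inl hx), hΦ1.inv x (Or.inl hx), hw1 x (Or.inl hx), hΦ1 x (Or.inl hx),
      hg x (Or.inl (by linarith))]
  rcases lt_or_ge x (1 / 4) with hx1 | hx1
  · have e1 : w⁻¹ x = 2 * x := by
      have h1 := hw (2 * x) (by linarith) (by linarith)
      have h2 : 2 * x / 2 = x := by ring
      rw [h2] at h1
      have h3 := inv_app w (2 * x)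
      rw [h1] at h3
      exact h3
    obtain ⟨k, z, hz0, hz1, hz⟩ := StoreUse_exists (y := 2 * x) (by linarith) (by linarith)
    obtain ⟨h2, h3⟩ := hg.inv.maps' hz0 hz1
    have e2 : Φ⁻¹ (2 * x) = g⁻¹ z / 2 ^ k := by
      have h4 := hΦ k (g⁻¹ z) h2 h3
      rw [app_inv, ← hz] at h4
      rw [← h4, inv_app]
    have h5 : (1 : ℝ) ≤ 2 ^ k := one_le_pow₀ (by norm_num)
    have h6 : g⁻¹ z / 2 ^ k ≤ g⁻¹ z := div_le_self (by linarith) h5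
    have h7 : 0 ≤ g⁻¹ z / 2 ^ k := div_nonneg (by linarith) (by positivity)
    rw [e1, e2, hw _ h7 (h6.trans h3), div_div, ← pow_succ, hΦ (k + 1) (g⁻¹ z) h2 h3, app_inv,
      hg x (Or.inl hx1.le), pow_succ, ← div_div, ← hz]
    ring
  · have h1 : 1 / 2 ≤ w⁻¹ x := by
      have h2 := hw (1 / 2) (by norm_num) le_rfl
      have h3 : w (1 / 2) ≤ x := by
        rw [h2]
        linarith
      have h4 := w⁻¹.le_iff_le.2 h3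
      rwa [inv_app] at h4
    rw [hΦ1.inv _ (Or.inr h1), app_inv]
    rcases le_or_gt x (1 / 2) with hx2 | hx2
    · have h5 := hΦ 0 x hx1 hx2
      rw [pow_zero, div_one, div_one] at h5
      exact h5
    · rw [hΦ1 x (Or.inr hx2.le), hg x (Or.inr hx2.le)]

end Pool.Agent.W_d1cfb0_h45
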