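import Pool.Agent.W_d1cfb0_h45.W
import Pool.Agent.W_d1cfb0_h45.Store
import Pool.Agent.W_d1cfb0_h45.StoreUse

/-!
# The commutator trick
-/

namespace Pool.Agent.W_d1cfb0_h45

/-- Homeomorphisms with disjoint supports commute. -/
theorem commute_of_disjoint {a b c d : ℝ} {g h : ℝ ≃o ℝ} (hg : SO a b g) (hh : SO c d h)
    (hbc : b ≤ c ∨ d ≤ a) : g * h = h * g := by
  refine RelIso.ext fun x => ?_
  rw [mul_app, mul_app]
  by_cases hx : x ≤ a ∨ b ≤ x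
  · rw [hg x hx]
    by_cases hx' : x ≤ c ∨ d ≤ x
    · rw [hh x hx', hg x hx]
    · push Not at hx'
      obtain ⟨h1, h2⟩ := hh.maps hx'.1 hx'.2
      refine hg _ ?_
      rcases hbc with h3 | h3
      · exact Or.inr (h3.trans h1.le)
      · exact Or.inl (h2.le.trans h3)
  · push Not at hx
    obtain ⟨h1, h2⟩ := hg.maps hx.1 hx.2
    have h4 : ∀ y, a < y → y < b → h y = y := by
      intro y hy1 hy2
      refine hh _ ?_
      rcases hbc with h3 | h3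
      · exact Or.inl (hy2.le.trans h3)
      · exact Or.inr (h3.trans hy1.le)
    rw [h4 x hx.1 hx.2, h4 _ h1 h2]

/-- all conjugates by maps supported in the block are in `H` -/
def CommMem_N (H : Set (ℝ ≃o ℝ)) (g : ℝ ≃o ℝ) : Prop :=
  ∀ f, SO (1 / 4) (1 / 2) f → f * g * f⁻¹ ∈ H

theorem CommMem_mul {P : (ℝ ≃o ℝ) → Prop} {H : Set (ℝ ≃o ℝ)} (hH : CG P H) {g g' : ℝ ≃o ℝ}
    (h : CommMem_N H g) (h' : CommMem_N H g') : CommMem_N H (g * g') := by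
  intro f hf
  have h1 := hH.mul _ (h f hf) _ (h' f hf)
  have h2 : f * g * f⁻¹ * (f * g' * f⁻¹) = f * (g * g') * f⁻¹ := by group
  rwa [h2] at h1

theorem CommMem_inv {P : (ℝ ≃o ℝ) → Prop} {H : Set (ℝ ≃o ℝ)} (hH : CG P H) {g : ℝ ≃o ℝ}
    (h : CommMem_N H g) : CommMem_N H g⁻¹ := by
  intro f hf
  have h1 := hH.inv _ (h f hf)
  have h2 : (f * g * f⁻¹)⁻¹ = f * g⁻¹ * f⁻¹ := by group
  rwa [h2] at h1

theorem CommMem_conj {H : Set (ℝ ≃o ℝ)} {g u : ℝ ≃o ℝ}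
    (h : CommMem_N H g) (hu : SO (1 / 4) (1 / 2) u) : CommMem_N H (u * g * u⁻¹) := by
  intro f hf
  have h1 := h (f * u) (hf.mul hu)
  have h2 : f * u * g * (f * u)⁻¹ = f * (u * g * u⁻¹) * f⁻¹ := by group
  rwa [h2] at h1

/-- Let `H` contain `e = Aff * w * Aff⁻¹` and all `f e f⁻¹` with `f` supported in `(1/4,1/2)`. Then
`H` contains everything supported in `Aff^3 (0,1) = (21/64, 22/64)`.

Proof. `I = (5/16, 6/16) = Aff (1/4, 1/2)`; `e` maps `I` onto `Aff (w (1/4,1/2)) = Aff (1/8, 1/4) =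
(9/32, 10/32)`, disjoint from `I`. Let `N = {g | ∀ f, SO (1/4) (1/2) f → f * g * f⁻¹ ∈ H}`; it is closed
under products, inverses and conjugation by elements supported in `(1/4,1/2)`, and `e ∈ N`.
For `u, v` supported in `I` (they are supported in `(1/4,1/2)`): `h = u * e * u⁻¹ * e⁻¹ ∈ N`, so
`h * (v * h⁻¹ * v⁻¹) ∈ N ⊆ H` (take `f = 1`), and `h = u * c` with `c = e * u⁻¹ * e⁻¹` supported in
`(9/32, 10/32)` (`SO.conj`), which commutes with `u` and `v`, so this element is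
`u * v * u⁻¹ * v⁻¹`. Given `g` supported in `(21/64, 22/64)` put `g0 = Aff⁻¹ ^ 2 * g * Aff ^ 2`, which is
supported in `(1/4, 1/2)`, let `Φ` store the constant sequence `g0` (`exists_store`), and take
`u = Aff ^ 2 * Φ * (Aff ^ 2)⁻¹`, `v = Aff ^ 2 * w * (Aff ^ 2)⁻¹` (supported in `Aff^2 (0,1) = I`); by
`store_comm` the commutator of `u` and `v` is `Aff ^ 2 * g0 * (Aff ^ 2)⁻¹ = g`. -/
theorem small_mem {H : Set (ℝ ≃o ℝ)} (hH : CG (SO 0 1) H) {w : ℝ ≃o ℝ} (hw1 : SO 0 1 w)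
    (hw : ∀ x, 0 ≤ x → x ≤ 1 / 2 → w x = x / 2)
    (hc : ∀ f, SO (1 / 4) (1 / 2) f → f * (Aff * w * Aff⁻¹) * f⁻¹ ∈ H) :
    ∀ g, SO (21 / 64) (22 / 64) g → g ∈ H := by
  intro g hg
  obtain ⟨e, he⟩ : ∃ e : ℝ ≃o ℝ, e = Aff * w * Aff⁻¹ := ⟨_, rfl⟩
  rw [← he] at hc
  have hNe : CommMem_N H e := hc
  -- the commutator trick
  have key : ∀ u v : ℝ ≃o ℝ, SO (5 / 16) (3 / 8) u → SO (5 / 16) (3 / 8) v →
      u * v * u⁻¹ * v⁻¹ ∈ H := by
    intro u v hu hv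
    have hu' : SO (1 / 4) (1 / 2) u := hu.mono (by norm_num) (by norm_num)
    have hv' : SO (1 / 4) (1 / 2) v := hv.mono (by norm_num) (by norm_num)
    have h1 : CommMem_N H (u * e * u⁻¹ * e⁻¹) :=
      CommMem_mul hH (CommMem_conj hNe hu') (CommMem_inv hH hNe)
    have h2 : CommMem_N H ((u * e * u⁻¹ * e⁻¹) * (v * (u * e * u⁻¹ * e⁻¹)⁻¹ * v⁻¹)) :=
      CommMem_mul hH h1 (CommMem_conj (CommMem_inv hH h1) hv')
    have h3 := h2 1 (SO.one _ _)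
    rw [one_mul, inv_one, mul_one] at h3
    obtain ⟨c, hcdef⟩ : ∃ c : ℝ ≃o ℝ, c = e * u⁻¹ * e⁻¹ := ⟨_, rfl⟩
    have hcs : SO (9 / 32) (5 / 16) c := by
      have h4 := hu.inv.conj e
      have h5 : e (5 / 16) = 9 / 32 := by
        rw [he, mul_app, mul_app, Aff_inv_apply, hw _ (by norm_num) (by norm_num), Aff_apply]
        norm_num
      have h6 : e (3 / 8) = 5 / 16 := by
        rw [he, mul_app, mul_app, Aff_inv_apply, hw _ (by norm_num) (by norm_num), Aff_apply]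
        norm_num
      rw [h5, h6, ← hcdef] at h4
      exact h4
    have hcv : c * v = v * c := commute_of_disjoint hcs hv (Or.inl le_rfl)
    have h7 : (u * e * u⁻¹ * e⁻¹) = u * c := by
      rw [hcdef]
      group
    rw [h7] at h3
    have h8 : u * c * (v * (u * c)⁻¹ * v⁻¹) = u * v * u⁻¹ * v⁻¹ := by
      calc u * c * (v * (u * c)⁻¹ * v⁻¹) = u * (c * v) * c⁻¹ * u⁻¹ * v⁻¹ := by group
        _ = u * (v * c) * c⁻¹ * u⁻¹ * v⁻¹ := by rw [hcv]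
        _ = u * v * u⁻¹ * v⁻¹ := by group
    rw [h8] at h3
    exact h3
  have hA0 : (Aff ^ 2) 0 = 5 / 16 := by
    rw [pow_two, mul_app, Aff_apply, Aff_apply]
    norm_num
  have hA1 : (Aff ^ 2) 1 = 3 / 8 := by
    rw [pow_two, mul_app, Aff_apply, Aff_apply]
    norm_num
  have hA2 : (Aff ^ 2) (1 / 4) = 21 / 64 := by
    rw [pow_two, mul_app, Aff_apply, Aff_apply]
    norm_num
  have hA3 : (Aff ^ 2) (1 / 2) = 22 / 64 := by
    rw [pow_two, mul_app, Aff_apply, Aff_apply]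
    norm_num
  obtain ⟨g0, hg0⟩ : ∃ g0 : ℝ ≃o ℝ, g0 = (Aff ^ 2)⁻¹ * g * Aff ^ 2 := ⟨_, rfl⟩
  have hg0s : SO (1 / 4) (1 / 2) g0 := by
    have h1 := hg.conj (Aff ^ 2)⁻¹
    rw [← hA2, ← hA3, inv_app, inv_app, inv_inv, ← hg0] at h1
    exact h1
  obtain ⟨Φ, hΦ1, hΦ2⟩ := exists_store (fun _ => g0) (fun _ => hg0s)
  have hcomm := store_comm hw1 hw hg0s hΦ1 hΦ2
  have hu : SO (5 / 16) (3 / 8) (Aff ^ 2 * Φ * (Aff ^ 2)⁻¹) := by
    have h1 := hΦ1.conj (Aff ^ 2)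
    rw [hA0, hA3] at h1
    exact h1.mono le_rfl (by norm_num)
  have hv : SO (5 / 16) (3 / 8) (Aff ^ 2 * w * (Aff ^ 2)⁻¹) := by
    have h1 := hw1.conj (Aff ^ 2)
    rw [hA0, hA1] at h1
    exact h1
  have h9 := key _ _ hu hv
  have h10 : Aff ^ 2 * Φ * (Aff ^ 2)⁻¹ * (Aff ^ 2 * w * (Aff ^ 2)⁻¹) *
      (Aff ^ 2 * Φ * (Aff ^ 2)⁻¹)⁻¹ * (Aff ^ 2 * w * (Aff ^ 2)⁻¹)⁻¹ =
      Aff ^ 2 * (Φ * w * Φ⁻¹ * w⁻¹) * (Aff ^ 2)⁻¹ := by group
  have h11 : Aff ^ 2 * g0 * (Aff ^ 2)⁻¹ = g := by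
    rw [hg0]
    group
  rw [h10, hcomm, h11] at h9
  exact h9

end Pool.Agent.W_d1cfb0_h45
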