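import Pool.Agent.W_d1cfb0_h45.StoreUse

/-!
# All conjugates of `e` by homeomorphisms of the block lie in the closed group
-/

namespace Pool.Agent.W_d1cfb0_h45

/-- An increasing homeomorphism which is the identity off a bounded interval is uniformly
continuous. -/
theorem SO.unif {a b : ℝ} {g : ℝ ≃o ℝ} (h : SO a b g) (ε : ℝ) (hε : 0 < ε) :
    ∃ δ > 0, ∀ x y, |x - y| ≤ δ → |g x - g y| ≤ ε := by
  have h1 : Continuous (fun x => g x - x) := g.continuous.sub continuous_id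
  have h2 : HasCompactSupport (fun x => g x - x) := by
    apply HasCompactSupport.intro (isCompact_Icc (a := a) (b := b))
    intro x hx
    have h3 : g x = x := by
      apply h x
      by_contra h4
      push Not at h4
      exact hx ⟨h4.1.le, h4.2.le⟩
    rw [h3, sub_self]
  have h3 := h2.uniformContinuous_of_continuous h1
  rw [Metric.uniformContinuous_iff] at h3
  obtain ⟨δ, hδ, h4⟩ := h3 (ε / 2) (by positivity)
  refine ⟨min (δ / 2) (ε / 2), lt_min (by positivity) (by positivity), fun x y hxy => ?_⟩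
  have h5 : |x - y| ≤ δ / 2 := hxy.trans (min_le_left _ _)
  have h6 : |x - y| ≤ ε / 2 := hxy.trans (min_le_right _ _)
  have h7 := h4 (a := x) (b := y) (by rw [Real.dist_eq]; linarith)
  rw [Real.dist_eq] at h7
  rw [abs_le] at h6 ⊢
  rw [abs_lt] at h7
  constructor <;> linarith [h6.1, h6.2, h7.1, h7.2]

/-- If `c⁻¹ f` is uniformly close to the identity then `(c e c⁻¹)⁻¹ (f e f⁻¹)` is.

Proof. `r = c⁻¹ f`, then `(c e c⁻¹)⁻¹ (f e f⁻¹) = f r⁻¹ e⁻¹ r e f⁻¹`; `|r y - y| ≤ η` for all `y`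
gives `|r⁻¹ y - y| ≤ η`; use uniform continuity of `e⁻¹` and of `f` (`SO.unif`). -/
theorem conj_close {e f : ℝ ≃o ℝ} (he : SO (1 / 4) (1 / 2) e) (hf : SO (1 / 4) (1 / 2) f)
    (ε : ℝ) (hε : 0 < ε) :
    ∃ η > 0, ∀ c : ℝ ≃o ℝ, (∀ x, |c⁻¹ (f x) - x| ≤ η) →
      ∀ x, |(c * e * c⁻¹)⁻¹ ((f * e * f⁻¹) x) - x| ≤ ε := by
  obtain ⟨δ1, hδ1, h1⟩ := hf.unif ε hε
  obtain ⟨δ2, hδ2, h2⟩ := he.inv.unif (δ1 / 2) (by positivity)
  refine ⟨min δ2 (δ1 / 2), lt_min hδ2 (by positivity), fun c hc x => ?_⟩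
  set y := f⁻¹ x with hy
  have hx : x = f y := by rw [hy, app_inv]
  set p := c⁻¹ (f (e y)) with hp
  set q := e⁻¹ p with hq
  set z := f⁻¹ (c q) with hz
  have e1 : (c * e * c⁻¹)⁻¹ ((f * e * f⁻¹) x) = f z := by
    rw [hz, app_inv, hq, hp, hx, mul_inv_rev, mul_inv_rev, inv_inv]
    simp only [mul_app, inv_app]
  rw [e1, hx]
  apply h1
  -- `c⁻¹ (f z) = q`
  have h3 : c⁻¹ (f z) = q := by rw [hz, app_inv, inv_app]
  have h4 := hc z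
  rw [h3] at h4
  have h5 := hc (e y)
  rw [← hp] at h5
  have h6 : |q - y| ≤ δ1 / 2 := by
    have h7 := h2 p (e y) (h5.trans (min_le_left _ _))
    rwa [inv_app, ← hq] at h7
  have h7 : |q - z| ≤ δ1 / 2 := h4.trans (min_le_right _ _)
  rw [abs_le] at h6 h7 ⊢
  constructor <;> linarith [h6.1, h6.2, h7.1, h7.2]

theorem conj_mem {H : Set (ℝ ≃o ℝ)} (hH : CG (SO 0 1) H) {w Φ e : ℝ ≃o ℝ} {F : ℕ → ℝ ≃o ℝ}
    (hw : ∀ x, 0 ≤ x → x ≤ 1 / 2 → w x = x / 2)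
    (hF : ∀ k, SO (1 / 4) (1 / 2) (F k))
    (hFd : ∀ f, SO (1 / 4) (1 / 2) f → ∀ η : ℝ, 0 < η → ∃ k, ∀ x, |(F k)⁻¹ (f x) - x| ≤ η)
    (hΦ : ∀ (k : ℕ) (x : ℝ), 1 / 4 ≤ x → x ≤ 1 / 2 → Φ (x / 2 ^ k) = F k x / 2 ^ k)
    (he : SO (1 / 4) (1 / 2) e) (hwH : w ∈ H) (hΦH : Φ ∈ H) (heH : e ∈ H) :
    ∀ f, SO (1 / 4) (1 / 2) f → f * e * f⁻¹ ∈ H := by
  intro f hf
  have hpow : ∀ k : ℕ, w ^ k ∈ H := by
    intro k
    induction k with
    | zero => rw [pow_zero]; exact hH.one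
    | succ k ih => rw [pow_succ]; exact hH.mul _ ih _ hwH
  have hso : ∀ g : ℝ ≃o ℝ, SO (1 / 4) (1 / 2) g → SO 0 1 (g * e * g⁻¹) := fun g hg =>
    ((hg.mul he).mul hg.inv).mono (by norm_num) (by norm_num)
  apply hH.cl _ (hso f hf)
  intro ε hε
  obtain ⟨η, hη, h1⟩ := conj_close he hf ε hε
  obtain ⟨k, hk⟩ := hFd f hf η hη
  refine ⟨F k * e * (F k)⁻¹, ?_, hso _ (hF k), h1 (F k) hk⟩
  rw [← store_conj hw hF hΦ he k]
  have h2 : (w ^ k)⁻¹ * Φ * w ^ k ∈ H :=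
    hH.mul _ (hH.mul _ (hH.inv _ (hpow k)) _ hΦH) _ (hpow k)
  exact hH.mul _ (hH.mul _ h2 _ heH) _ (hH.inv _ h2)

end Pool.Agent.W_d1cfb0_h45
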