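import Pool.Agent.W_d1cfb0_h45.Defs

/-!
# A dense sequence in the group of homeomorphisms of a block
-/

namespace Pool.Agent.W_d1cfb0_h45

/-- The restriction of `g⁻¹` to `[0,1]`. -/
noncomputable def DenseSeq_res (g : ℝ ≃o ℝ) : C(Set.Icc (0 : ℝ) 1, ℝ) :=
  ⟨fun x => g⁻¹ x, (g⁻¹ : ℝ ≃o ℝ).continuous.comp continuous_subtype_val⟩

theorem DenseSeq_res_apply (g : ℝ ≃o ℝ) (x : Set.Icc (0 : ℝ) 1) : DenseSeq_res g x = g⁻¹ x := rfl

/-- Proof. Map `g` with `SO (1/4) (1/2) g` to the restriction of `g⁻¹` to `[0,1]` in the separable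
metric space `C(Set.Icc (0:ℝ) 1, ℝ)`. The range is a subset of a second countable space, hence has a
countable dense subset; this gives the sequence with `|(F k)⁻¹ y - f⁻¹ y| ≤ η` for all `y` in
`[0,1]`, hence for all `y` (outside both are `y`); put `y = f x`. -/
theorem exists_dense : ∃ F : ℕ → (ℝ ≃o ℝ), (∀ k, SO (1 / 4) (1 / 2) (F k)) ∧
    ∀ f, SO (1 / 4) (1 / 2) f → ∀ η : ℝ, 0 < η → ∃ k, ∀ x, |(F k)⁻¹ (f x) - x| ≤ η := by
  set S : Set C(Set.Icc (0 : ℝ) 1, ℝ) := DenseSeq_res '' {g | SO (1 / 4) (1 / 2) g} with hS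
  have hne : Nonempty S := ⟨⟨DenseSeq_res 1, 1, SO.one _ _, rfl⟩⟩
  have hex : ∀ k, ∃ g, SO (1 / 4) (1 / 2) g ∧
      DenseSeq_res g = (TopologicalSpace.denseSeq S k : C(Set.Icc (0 : ℝ) 1, ℝ)) :=
    fun k => (TopologicalSpace.denseSeq S k).2
  choose F hF1 hF2 using hex
  refine ⟨F, hF1, fun f hf η hη => ?_⟩
  have hd := TopologicalSpace.denseRange_denseSeq S
  obtain ⟨k, hk⟩ := hd.exists_dist_lt ⟨DenseSeq_res f, f, hf, rfl⟩ hη
  refine ⟨k, fun x => ?_⟩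
  rw [Subtype.dist_eq, ← hF2 k] at hk
  have hx : x = f⁻¹ (f x) := (inv_app f x).symm
  set y : ℝ := f x with hy
  rw [hx]
  by_cases hy1 : y ∈ Set.Icc (0 : ℝ) 1
  · have h1 := (ContinuousMap.dist_apply_le_dist (f := DenseSeq_res f) (g := DenseSeq_res (F k))
      ⟨y, hy1⟩).trans hk.le
    rw [DenseSeq_res_apply, DenseSeq_res_apply, Real.dist_eq, abs_sub_comm] at h1
    exact h1
  · have h2 : y ≤ 1 / 4 ∨ 1 / 2 ≤ y := by
      by_contra hcon
      push Not at hcon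
      exact hy1 ⟨by linarith [hcon.1], by linarith [hcon.2]⟩
    rw [(hF1 k).inv y h2, hf.inv y h2, sub_self, abs_zero]
    exact hη.le

end Pool.Agent.W_d1cfb0_h45
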