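import Pool.Agent.W_d1cfb0_h45.ConjMem
import Pool.Agent.W_d1cfb0_h45.CommMem
import Pool.Agent.W_d1cfb0_h45.DenseSeq
import Pool.Agent.W_d1cfb0_h45.Attract

/-!
# Finitely many homeomorphisms of the interval
-/

namespace Pool.Agent.W_d1cfb0_h45

theorem DenseInt_pow {P : (ℝ ≃o ℝ) → Prop} {H : Set (ℝ ≃o ℝ)} (hH : CG P H) {v : ℝ ≃o ℝ}
    (hv : v ∈ H) (m : ℕ) : v ^ m ∈ H := by
  induction m with
  | zero =>
    rw [pow_zero]
    exact hH.one
  | succ m ih =>
    rw [pow_succ]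
    exact hH.mul _ ih _ hv

/-- Finitely many homeomorphisms of `[0,1]` such that each closed group containing them contains all
homeomorphisms with compact support in `(0,1)`: the generators are `w`, the storage `Φ` of a
dense sequence, `e = Aff * w * Aff⁻¹` and `v`. -/
theorem dense_interval : ∃ G : Set (ℝ ≃o ℝ), G.Finite ∧ (∀ g ∈ G, SO 0 1 g) ∧
    ∀ H, CG (SO 0 1) H → G ⊆ H → ∀ (g : ℝ ≃o ℝ) (a b : ℝ), 0 < a → a < b → b < 1 → SO a b g →
      g ∈ H := by
  obtain ⟨w, hw1, hw⟩ := exists_w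
  obtain ⟨F, hF, hFd⟩ := exists_dense
  obtain ⟨Φ, hΦ1, hΦ⟩ := exists_store F hF
  obtain ⟨v, hv1, hv⟩ := exists_v
  have he : SO (1 / 4) (1 / 2) (Aff * w * Aff⁻¹) := by
    have h1 := SO.conj hw1 Aff
    refine h1.mono ?_ ?_
    · rw [Aff_apply]
      norm_num
    · rw [Aff_apply]
      norm_num
  refine ⟨{w, Φ, Aff * w * Aff⁻¹, v}, ?_, ?_, ?_⟩
  · exact (((Set.finite_singleton v).insert _).insert _).insert _
  · intro g hg
    simp only [Set.mem_insert_iff, Set.mem_singleton_iff] at hg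
    rcases hg with rfl | rfl | rfl | rfl
    · exact hw1
    · exact hΦ1.mono le_rfl (by norm_num)
    · exact he.mono (by norm_num) (by norm_num)
    · exact hv1
  · intro H hH hGH g a b ha hab hb hg
    have h1 : w ∈ H := hGH (by simp)
    have h2 : Φ ∈ H := hGH (by simp)
    have h3 : Aff * w * Aff⁻¹ ∈ H := hGH (by simp)
    have h4 : v ∈ H := hGH (by simp)
    have h5 := conj_mem hH hw hF hFd hΦ he h1 h2 h3
    have h6 := small_mem hH hw1 hw h5
    obtain ⟨m, hm⟩ := hv a b ha hb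
    have h7 : v ^ m ∈ H := DenseInt_pow hH h4 m
    have h8 : v ^ m * g * (v ^ m)⁻¹ ∈ H := by
      apply h6
      refine (SO.conj hg (v ^ m)).mono ?_ ?_
      · exact (hm a le_rfl hab.le).1.le
      · exact (hm b hab.le le_rfl).2.le
    have h9 : g = (v ^ m)⁻¹ * (v ^ m * g * (v ^ m)⁻¹) * v ^ m := by group
    rw [h9]
    exact hH.mul _ (hH.mul _ (hH.inv _ h7) _ h8) _ h7

end Pool.Agent.W_d1cfb0_h45
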