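import Pool.Agent.W_d1cfb0_h29.ToSq

/-!
# Small measure preserving extensions (helper29)
-/

namespace Pool.Agent.W_d1cfb0_h45

open MeasureTheory

theorem small_ext (ε : ℝ) (hε : 0 < ε) : ∃ δ : ℝ, 0 < δ ∧ ∀ b : ℝ ≃o ℝ, Lf b →
    (∀ x, |b x - x| ≤ δ) →
    ∃ h : Sq ≃ₜ Sq, PV h ∧ (∀ t, h (bd t) = bd (b t)) ∧ ∀ p, dist (h p) p ≤ ε :=
  Pool.Agent.W_d1cfb0_h29.small_ext' ε hε

end Pool.Agent.W_d1cfb0_h45
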