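import Pool.Agent.W_d1cfb0_h59.FinalCube
import Pool.Agent.W_d1cfb0_h45.Asm

/-!
# The group of area preserving homeomorphisms of the square is topologically finitely generated
-/

namespace Pool.Agent.W_d1cfb0_h45

open MeasureTheory

theorem final_wave_swap (t : ℝ) : wave (t - 1 / 4) = wave (-t) := by
  have h1 := wave_neg (t - 1 / 4)
  have h2 := wave_add_one (-t)
  have h3 : 3 / 4 - (t - 1 / 4) = -t + 1 := by ring
  rw [h3, h2] at h1
  exact h1.symm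

theorem final_wave_swap' (t : ℝ) : wave (-t - 1 / 4) = wave t := by
  have h1 := final_wave_swap (-t)
  rwa [neg_neg] at h1

theorem final_swap : ∃ r : Sq ≃ₜ Sq, PV r ∧ ∀ t, r (bd t) = bd (-t) := by
  obtain ⟨r, hr, hr2⟩ := exists_swap
  refine ⟨r, hr, fun t => ?_⟩
  apply Subtype.ext
  ext i
  fin_cases i
  · change (r (bd t) : E2) 0 = (bd (-t) : E2) 0
    rw [(hr2 _).1, bd_one, bd_zero, final_wave_swap]
  · change (r (bd t) : E2) 1 = (bd (-t) : E2) 1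
    rw [(hr2 _).2, bd_one, bd_zero, final_wave_swap']

/-- Finitely many area preserving homeomorphisms of the square generate a dense subgroup. -/
theorem two_dim_sq : ∃ k : ℕ, ∃ T : Fin k → (Sq ≃ₜ Sq), (∀ i, PV (T i)) ∧
    ∀ h : Sq ≃ₜ Sq, PV h → h ∈ clo (Subgroup.closure (Set.range T)) := by
  obtain ⟨k0, T0, hT0, hB⟩ := Pool.Agent.W_d1cfb0_h59.final_boundary 2 le_rfl Sq rfl
  obtain ⟨G, hGf, hG1, hG2⟩ := circle_dense
  obtain ⟨r, hr, hr2⟩ := final_swap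
  have hlift : ∀ b : ℝ ≃o ℝ, Lf b → ∃ h : Sq ≃ₜ Sq, PV h ∧ ∀ t, h (bd t) = bd (b t) :=
    fun b hb => exists_lift hb
  choose! L hL1 hL2 using hlift
  have hfin : (Set.range T0 ∪ L '' G ∪ {r}).Finite :=
    ((Set.finite_range T0).union (hGf.image L)).union (Set.finite_singleton r)
  obtain ⟨k, T, hT⟩ : ∃ (k : ℕ) (T : Fin k → (Sq ≃ₜ Sq)),
      Set.range T = Set.range T0 ∪ L '' G ∪ {r} := by
    have := hfin.fintype
    refine ⟨Fintype.card (Set.range T0 ∪ L '' G ∪ {r} : Set (Sq ≃ₜ Sq)),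
      fun i => ((Fintype.equivFin (Set.range T0 ∪ L '' G ∪ {r} : Set (Sq ≃ₜ Sq))).symm i :
        Sq ≃ₜ Sq), ?_⟩
    ext g
    constructor
    · rintro ⟨i, rfl⟩
      exact ((Fintype.equivFin (Set.range T0 ∪ L '' G ∪ {r} : Set (Sq ≃ₜ Sq))).symm i).2
    · intro hg
      exact ⟨Fintype.equivFin (Set.range T0 ∪ L '' G ∪ {r} : Set (Sq ≃ₜ Sq)) ⟨g, hg⟩, by simp⟩
  have hTP : ∀ g ∈ Set.range T, PV g := by
    rw [hT]
    rintro g ((⟨i, rfl⟩ | ⟨b, hb, rfl⟩) | hg)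
    · exact hT0 i
    · exact hL1 b (hG1 b hb)
    · rw [Set.mem_singleton_iff.1 hg]
      exact hr
  refine ⟨k, T, fun i => hTP _ (Set.mem_range_self i), ?_⟩
  have hsub : ∀ g ∈ Set.range T0 ∪ L '' G ∪ {r}, g ∈ clo (Subgroup.closure (Set.range T)) := by
    intro g hg
    rw [← hT] at hg
    exact sub_clo _ (Subgroup.subset_closure hg)
  have hone : (1 : Sq ≃ₜ Sq) ∈ clo (Subgroup.closure (Set.range T)) :=
    sub_clo _ (Subgroup.one_mem _)
  have hK : ∀ h : Sq ≃ₜ Sq, PV h → (∀ p, OnB p → h p = p) →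
      h ∈ clo (Subgroup.closure (Set.range T)) := by
    intro h hh hhb
    apply clo_cl
    intro ε hε
    obtain ⟨g, hg1, hg2⟩ := hB h hh (fun p hp => hhb p hp) ε hε
    refine ⟨g, ?_, hg2⟩
    apply hg1
    · exact hone
    · intro i
      exact hsub _ (Or.inl (Or.inl (Set.mem_range_self i)))
    · intro f hf f' hf'
      exact clo_mul _ hf' hf
    · intro f hf
      exact clo_inv _ hf
  exact all_mem hone (fun a ha b hb => clo_mul _ ha hb) (fun a ha => clo_inv _ ha)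
    (fun h _ hh => clo_cl _ h hh) hK hG1 hG2
    (fun b hb => ⟨L b, hsub _ (Or.inl (Or.inr ⟨b, hb, rfl⟩)), hL1 b (hG1 b hb),
      hL2 b (hG1 b hb)⟩) hr hr2 (hsub _ (Or.inr rfl))

theorem two_dim (C : Set (EuclideanSpace ℝ (Fin 2))) (hC : C = {x | ∀ i, x i ∈ Set.Icc (0:ℝ) 1}) :
    ∃ k : ℕ, ∃ T : Fin k → (C ≃ₜ C),
      (∀ i, ∀ A : Set (EuclideanSpace ℝ (Fin 2)), MeasurableSet A → A ⊆ C →
        volume (Subtype.val '' ((T i) '' (Subtype.val ⁻¹' A))) = volume A) ∧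
      ∀ h : C ≃ₜ C,
        (∀ A : Set (EuclideanSpace ℝ (Fin 2)), MeasurableSet A → A ⊆ C →
          volume (Subtype.val '' (h '' (Subtype.val ⁻¹' A))) = volume A) →
        ∀ ε : ℝ, 0 < ε → ∃ g : C ≃ₜ C,
          (∀ S : Set (C ≃ₜ C), Homeomorph.refl C ∈ S → (∀ i, T i ∈ S) →
              (∀ f ∈ S, ∀ f' ∈ S, f.trans f' ∈ S) → (∀ f ∈ S, f.symm ∈ S) → g ∈ S) ∧
          ∀ p : C, dist (g p) (h p) < ε ∧ dist (g.symm p) (h.symm p) < ε := by
  subst hC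
  obtain ⟨k, T, hT, hd⟩ := two_dim_sq
  refine ⟨k, T, hT, fun h hh ε hε => ?_⟩
  obtain ⟨g, hg, hgh⟩ := hd h hh ε hε
  refine ⟨g, ?_, hgh⟩
  intro S h1 h2 h3 h4
  refine Subgroup.closure_induction (p := fun g _ => g ∈ S) ?_ h1 ?_ ?_ hg
  · rintro x ⟨i, rfl⟩
    exact h2 i
  · intro x y _ _ hx hy
    exact h3 y hy x hx
  · intro x _ hx
    exact h4 x hx

end Pool.Agent.W_d1cfb0_h45
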