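import Mathlib

/-!
# The map of the circle minus a point in the coordinate `t` in `(0,1)`
-/

namespace Pool.Agent.W_d1cfb0_h45

/-- Proof. For `0 < t < 1` choose `s` with `h (e t) = e s` and put `φ t = Int.fract s`, so
`h (e t) = e (φ t)`, `0 ≤ φ t < 1`; `φ t ≠ 0` because otherwise `h (e t) = e 0 = h (e 0)`, `e t = e 0`,
`t` an integer. Continuity at `t`: let `V` be an open interval in `(0,1)` around `φ t`; the set
`e '' (Icc 0 1 \ V)` is compact, hence closed, and does not contain `e (φ t)` (`e s = e (φ t)` with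
`0 ≤ s ≤ 1`, `0 < φ t < 1` gives `s = φ t`); so `h (e t')` is not in it for `t'` near `t`,
hence `φ t' ∈ V`. -/
theorem exists_phi {X : Type*} [TopologicalSpace X] [T2Space X] (e : ℝ → X) (he : Continuous e)
    (hp : ∀ s t, e s = e t ↔ ∃ n : ℤ, s = t + n) (h : X ≃ₜ X) (h1 : ∀ t, ∃ s, h (e t) = e s)
    (h0 : h (e 0) = e 0) :
    ∃ φ : ℝ → ℝ, (∀ t, 0 < t → t < 1 → 0 < φ t ∧ φ t < 1 ∧ h (e t) = e (φ t)) ∧
      ContinuousOn φ (Set.Ioo 0 1) := by
  choose S hS using h1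
  have hfr : ∀ t, h (e t) = e (Int.fract (S t)) := by
    intro t
    rw [hS t]
    refine (hp _ _).2 ⟨⌊S t⌋, ?_⟩
    exact (Int.fract_add_floor (S t)).symm
  have hpos : ∀ t, 0 < t → t < 1 → 0 < Int.fract (S t) := by
    intro t ht0 ht1
    refine lt_of_le_of_ne (Int.fract_nonneg _) fun hz => ?_
    have h2 : h (e t) = h (e 0) := by
      rw [hfr t, ← hz, h0]
    obtain ⟨n, hn⟩ := (hp _ _).1 (h.injective h2)
    rw [zero_add] at hn
    rw [hn] at ht0 ht1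
    have h3 : (0 : ℤ) < n := by exact_mod_cast ht0
    have h4 : n < (1 : ℤ) := by exact_mod_cast ht1
    omega
  refine ⟨fun t => Int.fract (S t), fun t ht0 ht1 =>
    ⟨hpos t ht0 ht1, Int.fract_lt_one _, hfr t⟩, ?_⟩
  rintro t ⟨ht0, ht1⟩
  rw [ContinuousWithinAt, Filter.tendsto_def]
  intro U hU
  obtain ⟨V, hVU, hVo, hVt⟩ := mem_nhds_iff.1 hU
  have hK : IsCompact (Set.Icc (0 : ℝ) 1 \ (V ∩ Set.Ioo 0 1)) :=
    isCompact_Icc.diff (hVo.inter isOpen_Ioo)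
  have hcl : IsClosed (e '' (Set.Icc (0 : ℝ) 1 \ (V ∩ Set.Ioo 0 1))) :=
    (hK.image he).isClosed
  have hop : IsOpen ((fun t => h (e t)) ⁻¹' (e '' (Set.Icc (0 : ℝ) 1 \ (V ∩ Set.Ioo 0 1)))ᶜ) :=
    hcl.isOpen_compl.preimage (h.continuous.comp he)
  have htm : t ∈ (fun t => h (e t)) ⁻¹' (e '' (Set.Icc (0 : ℝ) 1 \ (V ∩ Set.Ioo 0 1)))ᶜ := by
    rintro ⟨s, ⟨⟨hs0, hs1⟩, hsV⟩, hse⟩
    have hse' : e s = e (Int.fract (S t)) := by
      rw [hse]
      exact hfr t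
    obtain ⟨n, hn⟩ := (hp _ _).1 hse'
    have hp0 := hpos t ht0 ht1
    have hp1 := Int.fract_lt_one (S t)
    have hn0 : n = 0 := by
      have h3 : (-1 : ℝ) < n := by linarith
      have h4 : (n : ℝ) < 1 := by linarith
      have h5 : (-1 : ℤ) < n := by exact_mod_cast h3
      have h6 : n < (1 : ℤ) := by exact_mod_cast h4
      omega
    rw [hn0, Int.cast_zero, add_zero] at hn
    apply hsV
    rw [hn]
    exact ⟨hVt, hp0, hp1⟩
  filter_upwards [mem_nhdsWithin_of_mem_nhds (hop.mem_nhds htm), self_mem_nhdsWithin] with t' ht' hI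
  apply hVU
  by_contra hcon
  apply ht'
  refine ⟨Int.fract (S t'), ⟨⟨Int.fract_nonneg _, (Int.fract_lt_one _).le⟩, ?_⟩, (hfr t').symm⟩
  intro hmem
  exact hcon hmem.1

end Pool.Agent.W_d1cfb0_h45
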