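import Pool.Agent.W_d1cfb0_h45.Defs

/-!
# The contraction `w`
-/

namespace Pool.Agent.W_d1cfb0_h45

/-- There is a homeomorphism of `[0,1]` which is `x ↦ x / 2` on `[0, 1/2]`.

Proof. `w x = min x (max (x / 2) (3 * x / 2 - 1 / 2))`, inverse `y ↦ max y (min (2 * y) ((2 * y + 1) / 3))`:
for `x ≤ 0` the value is `x`, on `[0,1/2]` it is `x/2`, on `[1/2,1]` it is `3x/2 - 1/2`, for `x ≥ 1` it
is `x`. Strictly increasing and inverse to the formula by cases with `linarith`. -/
theorem exists_w : ∃ w : ℝ ≃o ℝ, SO 0 1 w ∧ ∀ x, 0 ≤ x → x ≤ 1 / 2 → w x = x / 2 := by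
  have hl : Function.LeftInverse (fun y : ℝ => max y (min (2 * y) ((2 * y + 1) / 3)))
      (fun x : ℝ => min x (max (x / 2) (3 * x / 2 - 1 / 2))) := by
    intro x
    simp only []
    rcases le_total x (max (x / 2) (3 * x / 2 - 1 / 2)) with h1 | h1
    · rw [min_eq_left h1]
      rcases le_total (2 * x) ((2 * x + 1) / 3) with h2 | h2
      · rw [min_eq_left h2, max_eq_left]
        rcases le_max_iff.1 h1 with h3 | h3 <;> linarith
      · rw [min_eq_right h2, max_eq_left]
        rcases le_max_iff.1 h1 with h3 | h3 <;> linarith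
    · rw [min_eq_right h1]
      obtain ⟨h3, h4⟩ := max_le_iff.1 h1
      rcases le_total (x / 2) (3 * x / 2 - 1 / 2) with h2 | h2
      · rw [max_eq_right h2, min_eq_right (by linarith), max_eq_right (by linarith)]
        ring
      · rw [max_eq_left h2, min_eq_left (by linarith), max_eq_right (by linarith)]
        ring
  have hr : Function.RightInverse (fun y : ℝ => max y (min (2 * y) ((2 * y + 1) / 3)))
      (fun x : ℝ => min x (max (x / 2) (3 * x / 2 - 1 / 2))) := by
    intro y
    simp only []
    rcases le_total y (min (2 * y) ((2 * y + 1) / 3)) with h1 | h1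
    · rw [max_eq_right h1]
      obtain ⟨h3, h4⟩ := le_min_iff.1 h1
      rcases le_total (2 * y) ((2 * y + 1) / 3) with h2 | h2
      · rw [min_eq_left h2, max_eq_left (by linarith), min_eq_right (by linarith)]
        ring
      · rw [min_eq_right h2, max_eq_right (by linarith), min_eq_right (by linarith)]
        ring
    · rw [max_eq_left h1, min_eq_left]
      rcases min_le_iff.1 h1 with h3 | h3
      · exact le_max_of_le_left (by linarith)
      · exact le_max_of_le_right (by linarith)
  have hm : ∀ a b : ℝ, (min a (max (a / 2) (3 * a / 2 - 1 / 2)) ≤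
      min b (max (b / 2) (3 * b / 2 - 1 / 2))) ↔ a ≤ b := by
    intro a b
    constructor
    · intro h
      by_contra hab
      push Not at hab
      have h1 : min b (max (b / 2) (3 * b / 2 - 1 / 2)) <
          min a (max (a / 2) (3 * a / 2 - 1 / 2)) := by
        refine lt_min ?_ ?_
        · exact lt_of_le_of_lt (min_le_left _ _) hab
        · refine lt_of_le_of_lt (min_le_right _ _) (max_lt_max (by linarith) (by linarith))
      linarith
    · intro h
      exact min_le_min h (max_le_max (by linarith) (by linarith))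
  refine ⟨{ toFun := fun x : ℝ => min x (max (x / 2) (3 * x / 2 - 1 / 2))
            invFun := fun y : ℝ => max y (min (2 * y) ((2 * y + 1) / 3))
            left_inv := hl
            right_inv := hr
            map_rel_iff' := fun {a b} => hm a b }, ?_, ?_⟩
  · intro x hx
    change min x (max (x / 2) (3 * x / 2 - 1 / 2)) = x
    rcases hx with hx | hx
    · exact min_eq_left (le_max_of_le_left (by linarith))
    · exact min_eq_left (le_max_of_le_right (by linarith))
  · intro x h0 h1
    change min x (max (x / 2) (3 * x / 2 - 1 / 2)) = x / 2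
    rw [max_eq_left (by linarith), min_eq_right (by linarith)]

/-- Powers of `w` on the block `[0, 1/2]`. -/
theorem w_pow {w : ℝ ≃o ℝ} (hw : ∀ x, 0 ≤ x → x ≤ 1 / 2 → w x = x / 2) (k : ℕ) (x : ℝ)
    (h0 : 0 ≤ x) (h1 : x ≤ 1 / 2) : (w ^ k) x = x / 2 ^ k := by
  induction k generalizing x with
  | zero => simp
  | succ k ih =>
    rw [pow_succ, mul_app, hw x h0 h1, ih (x / 2) (by linarith) (by linarith)]
    rw [pow_succ]
    field_simp

end Pool.Agent.W_d1cfb0_h45
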